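import Pool.Agent.D0H97.ERW.Theta

set_option autoImplicit false

open MeasureTheory ProbabilityTheory Filter Topology
open scoped ENNReal BigOperators

namespace Pool.Agent.D0H97.ERW

/-- environment with independent stacks of law `seqLaw q` -/
noncomputable def envLaw (q : ℕ → ℝ) : Measure (ℤ → ℕ → Bool) :=
  Measure.infinitePi (fun _ => seqLaw q)

instance (q : ℕ → ℝ) : IsProbabilityMeasure (envLaw q) := by
  unfold envLaw; infer_instance

/-- branching type chain: `Z (k+1) = F (Z k) (stack at σ k)` -/
def chain (F : ℕ → (ℕ → Bool) → ℕ) (σ : ℕ → ℤ) (m : ℕ) (ω : ℤ → ℕ → Bool) : ℕ → ℕ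
  | 0 => m
  | (k + 1) => F (chain F σ m ω k) (ω (σ k))

/-- its transition operator -/
noncomputable def KK (q : ℕ → ℝ) (F : ℕ → (ℕ → Bool) → ℕ) (f : ℕ → ℝ≥0∞) (x : ℕ) : ℝ≥0∞ :=
  ∫⁻ τ, f (F x τ) ∂(seqLaw q)

lemma measurable_pair {F : ℕ → (ℕ → Bool) → ℕ} (hF : ∀ x, Measurable (F x)) :
    Measurable (fun p : ℕ × (ℕ → Bool) => F p.1 p.2) :=
  measurable_from_prod_countable_right (fun x => hF x)

lemma measurable_chain {F : ℕ → (ℕ → Bool) → ℕ} (hF : ∀ x, Measurable (F x)) (σ : ℕ → ℤ)
    (m k : ℕ) : Measurable (fun ω => chain F σ m ω k) := by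
  induction k with
  | zero => exact measurable_const
  | succ k ih =>
    have h1 : Measurable (fun ω : ℤ → ℕ → Bool => (chain F σ m ω k, ω (σ k))) :=
      ih.prodMk (measurable_pi_apply _)
    exact (measurable_pair hF).comp h1

lemma chain_congr {F : ℕ → (ℕ → Bool) → ℕ} {σ : ℕ → ℤ} {m k : ℕ} {ω ω' : ℤ → ℕ → Bool}
    (h : ∀ j < k, ω (σ j) = ω' (σ j)) : chain F σ m ω k = chain F σ m ω' k := by
  induction k with
  | zero => rfl
  | succ k ih =>
    simp only [chain]
    rw [ih (fun j hj => h j (by omega)), h k (by omega)]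

/-- extension of a finite family of stacks -/
def ext (S : Finset ℤ) (u : S → ℕ → Bool) : ℤ → ℕ → Bool :=
  fun i => if h : i ∈ S then u ⟨i, h⟩ else fun _ => false

lemma measurable_ext (S : Finset ℤ) : Measurable (ext S) := by
  apply measurable_pi_lambda
  intro i
  unfold ext
  split_ifs with h
  · exact measurable_pi_apply _
  · exact measurable_const

lemma indep_chain {q : ℕ → ℝ} {F : ℕ → (ℕ → Bool) → ℕ} (hF : ∀ x, Measurable (F x)) {σ : ℕ → ℤ}
    (hσ : Function.Injective σ) (m k : ℕ) :
    IndepFun (fun ω => chain F σ m ω k) (fun ω : ℤ → ℕ → Bool => ω (σ k)) (envLaw q) := by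
  have h : iIndepFun (fun (i : ℤ) (ω : ℤ → ℕ → Bool) => ω i) (envLaw q) :=
    iIndepFun_infinitePi (X := fun _ b => b) (fun _ => measurable_id)
  set S : Finset ℤ := (Finset.range k).image σ with hS
  have hdis : Disjoint S {σ k} := by
    rw [Finset.disjoint_singleton_right, hS, Finset.mem_image]
    rintro ⟨j, hj, hjk⟩
    have := hσ hjk
    rw [Finset.mem_range] at hj
    omega
  have h2 := h.indepFun_finset S {σ k} hdis (fun i => measurable_pi_apply i)
  have hψ : Measurable (fun (u : ({σ k} : Finset ℤ) → ℕ → Bool) => u ⟨σ k, by simp⟩) :=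
    measurable_pi_apply _
  have hφ : Measurable (fun u : S → ℕ → Bool => chain F σ m (ext S u) k) :=
    (measurable_chain hF σ m k).comp (measurable_ext S)
  have h3 := h2.comp hφ hψ
  have e : (fun u => chain F σ m (ext S u) k) ∘ (fun (ω : ℤ → ℕ → Bool) (i : S) => ω i)
      = fun ω => chain F σ m ω k := by
    funext ω
    apply chain_congr
    intro j hj
    have : σ j ∈ S := Finset.mem_image_of_mem σ (Finset.mem_range.2 hj)
    simp [ext, this]
  rw [e] at h3
  exact h3

lemma lintegral_chain {q : ℕ → ℝ} {F : ℕ → (ℕ → Bool) → ℕ} (hF : ∀ x, Measurable (F x))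
    {σ : ℕ → ℤ} (hσ : Function.Injective σ) (m : ℕ) (k : ℕ) (f : ℕ → ℝ≥0∞) :
    ∫⁻ ω, f (chain F σ m ω k) ∂(envLaw q) = (KK q F)^[k] f m := by
  induction k generalizing f with
  | zero => simp [chain]
  | succ k ih =>
    rw [Function.iterate_succ_apply, ← ih (KK q F f)]
    have hind := indep_chain (q := q) hF hσ m k
    rw [indepFun_iff_map_prod_eq_prod_map_map (measurable_chain hF σ m k).aemeasurable
      (measurable_pi_apply _).aemeasurable] at hind
    have hlaw : (envLaw q).map (fun ω : ℤ → ℕ → Bool => ω (σ k)) = seqLaw q := by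
      unfold envLaw
      exact Measure.infinitePi_map_eval _ (σ k)
    rw [hlaw] at hind
    have hg : Measurable (fun p : ℕ × (ℕ → Bool) => f (F p.1 p.2)) :=
      (measurable_of_countable f).comp (measurable_pair hF)
    have e1 : ∫⁻ ω, f (chain F σ m ω (k + 1)) ∂(envLaw q)
        = ∫⁻ p, f (F p.1 p.2) ∂((envLaw q).map (fun ω => (chain F σ m ω k, ω (σ k)))) := by
      rw [lintegral_map hg ((measurable_chain hF σ m k).prodMk (measurable_pi_apply _))]
      rfl
    rw [e1, hind, lintegral_prod _ hg.aemeasurable,
      lintegral_map (measurable_of_countable _) (measurable_chain hF σ m k)]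
    rfl

lemma KK_mono {q : ℕ → ℝ} {F : ℕ → (ℕ → Bool) → ℕ} {f g : ℕ → ℝ≥0∞} (h : ∀ x, f x ≤ g x) (x : ℕ) :
    KK q F f x ≤ KK q F g x :=
  lintegral_mono (fun _ => h _)

lemma KK_iter_le {q : ℕ → ℝ} {F : ℕ → (ℕ → Bool) → ℕ} {f V : ℕ → ℝ≥0∞} (h : ∀ x, f x ≤ V x)
    (hV : ∀ x, KK q F V x ≤ V x) (k x : ℕ) : (KK q F)^[k] f x ≤ V x := by
  induction k generalizing x with
  | zero => exact h x
  | succ k ih =>
    rw [Function.iterate_succ_apply']
    exact (KK_mono ih x).trans (hV x)

lemma U_zero (τ : ℕ → Bool) : U 0 τ = 0 := by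
  unfold U
  have : sInf {n | fails τ n = 0} = 0 := by
    apply Nat.eq_zero_of_le_zero
    exact Nat.sInf_le (fails_zero τ)
  rw [this]

/-- the chain of the right excursions is unlikely to die when started high -/
theorem right_chain : ∃ V : ℕ → ℝ, Tendsto V atTop (𝓝 0) ∧
    ∀ (σ : ℕ → ℤ), Function.Injective σ → ∀ m, envLaw qq {ω | ∃ k, chain U σ m ω k = 0} ≤
      ENNReal.ofReal (V m) := by
  obtain ⟨x0, hx0⟩ := super
  refine ⟨fun m => min 1 (H m / H x0), ?_, ?_⟩
  · have h1 : Tendsto (fun m : ℕ => H m) atTop (𝓝 0) := by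
      unfold H
      have h3 : Tendsto (fun x : ℕ => (x : ℝ) + 2) atTop atTop :=
        tendsto_atTop_add_const_right _ _ tendsto_natCast_atTop_atTop
      have := (Real.tendsto_log_atTop.comp h3).const_div_atTop 1
      exact this
    have h2 : Tendsto (fun m : ℕ => H m / H x0) atTop (𝓝 0) := by
      simpa using h1.div_const (H x0)
    have h3 := (tendsto_const_nhds (x := (1:ℝ))).min h2
    simpa using h3
  · intro σ hσ m
    set V : ℕ → ℝ≥0∞ := fun x => ENNReal.ofReal (min 1 (H x / H x0)) with hVdef
    have hV : ∀ x, KK qq U V x ≤ V x := by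
      intro x
      rcases lt_or_ge x x0 with hx | hx
      · have : V x = 1 := by
          rw [hVdef]
          simp only
          rw [min_eq_left, ENNReal.ofReal_one]
          rw [one_le_div (H_pos _)]
          exact H_anti hx.le
        rw [this]
        calc KK qq U V x ≤ ∫⁻ _τ, 1 ∂(seqLaw qq) := by
              apply lintegral_mono
              intro τ
              rw [hVdef]
              simp only
              rw [ENNReal.ofReal_le_one]
              exact min_le_left _ _
          _ = 1 := by simp
      · have hHint : Integrable (fun τ => H (U x τ) / H x0) (seqLaw qq) := by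
          apply Integrable.div_const
          apply Integrable.of_bound (C := 3/2)
          · exact ((measurable_of_countable H).comp (measurable_U x)).aestronglyMeasurable
          · apply ae_of_all
            intro τ
            rw [Real.norm_of_nonneg (H_pos _).le]
            exact H_le _
        have hle : KK qq U V x ≤ ENNReal.ofReal (H x / H x0) := by
          calc KK qq U V x ≤ ∫⁻ τ, ENNReal.ofReal (H (U x τ) / H x0) ∂(seqLaw qq) := by
                apply lintegral_mono
                intro τ
                exact ENNReal.ofReal_le_ofReal (min_le_right _ _)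
            _ = ENNReal.ofReal (∫ τ, H (U x τ) / H x0 ∂(seqLaw qq)) := by
                rw [ofReal_integral_eq_lintegral_ofReal hHint]
                apply ae_of_all
                intro τ
                exact (div_pos (H_pos _) (H_pos _)).le
            _ ≤ _ := by
                apply ENNReal.ofReal_le_ofReal
                rw [integral_div]
                exact div_le_div_of_nonneg_right (hx0 x hx) (H_pos _).le
        have hle1 : KK qq U V x ≤ 1 := by
          calc KK qq U V x ≤ ∫⁻ _τ, 1 ∂(seqLaw qq) := by
                apply lintegral_mono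
                intro τ
                rw [hVdef]
                simp only
                rw [ENNReal.ofReal_le_one]
                exact min_le_left _ _
            _ = 1 := by simp
        rw [hVdef]
        simp only
        rw [ENNReal.ofReal_min, ENNReal.ofReal_one]
        exact le_min hle1 hle
    have hk : ∀ k, envLaw qq {ω | chain U σ m ω k = 0} ≤ V m := by
      intro k
      have h1 := lintegral_chain (q := qq) (F := U) measurable_U hσ m k
        (fun x => if x = 0 then 1 else 0)
      have h2 : ∫⁻ ω, (if chain U σ m ω k = 0 then (1:ℝ≥0∞) else 0) ∂(envLaw qq)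
          = envLaw qq {ω | chain U σ m ω k = 0} := by
        have hm : MeasurableSet {ω | chain U σ m ω k = 0} :=
          measurable_chain measurable_U σ m k (measurableSet_singleton 0)
        rw [← lintegral_indicator_one hm]
        apply lintegral_congr
        intro ω
        simp only [Set.indicator, Set.mem_ofPred_eq, Pi.one_apply]
      rw [← h2]
      refine h1.le.trans ?_
      apply KK_iter_le _ hV
      intro x
      split_ifs with hx
      · subst hx
        rw [hVdef]
        simp only
        rw [min_eq_left, ENNReal.ofReal_one]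
        rw [one_le_div (H_pos _)]
        exact H_anti (Nat.zero_le _)
      · exact zero_le
    have hmono : Monotone (fun k => {ω | chain U σ m ω k = 0}) := by
      apply monotone_nat_of_le_succ
      intro k ω hω
      simp only [Set.mem_ofPred_eq] at hω ⊢
      simp only [chain]
      rw [hω, U_zero]
    have hun : {ω | ∃ k, chain U σ m ω k = 0} = ⋃ k, {ω | chain U σ m ω k = 0} := by
      ext ω; simp
    rw [hun, hmono.measure_iUnion]
    exact iSup_le hk

end Pool.Agent.D0H97.ERW
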