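import Pool.Agent.D0H97.ERW.ChainL

set_option autoImplicit false

open MeasureTheory ProbabilityTheory Filter Topology
open scoped ENNReal BigOperators

namespace Pool.Agent.D0H97.ERW

lemma coin_map_not {r : ℝ} (h0 : 0 ≤ r) (h1 : r ≤ 1) :
    (coin r).map (fun b => !b) = coin (1 - r) := by
  have hm : Measurable (fun b : Bool => !b) := measurable_of_finite _
  have : IsProbabilityMeasure ((coin r).map (fun b => !b)) :=
    Measure.isProbabilityMeasure_map hm.aemeasurable
  apply Measure.ext_of_singleton
  intro b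
  rw [Measure.map_apply hm (measurableSet_singleton _)]
  cases b
  · have : (fun b : Bool => !b) ⁻¹' {false} = {true} := by ext b; cases b <;> simp
    rw [this, coin_real_true h0 h1, coin_real_false (by linarith) (by linarith)]
    congr 1
    ring
  · have : (fun b : Bool => !b) ⁻¹' {true} = {false} := by ext b; cases b <;> simp
    rw [this, coin_real_false h0 h1, coin_real_true (by linarith) (by linarith)]

lemma seqLaw_map_not {q : ℕ → ℝ} (hq : ∀ i, 0 ≤ q i ∧ q i ≤ 1) :
    (seqLaw q).map (fun τ i => !τ i) = seqLaw (fun i => 1 - q i) := by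
  unfold seqLaw
  rw [Measure.infinitePi_map_pi (f := fun _ b => !b) (fun i => coin (q i))
    (fun _ => measurable_of_finite _)]
  congr 1
  funext i
  exact coin_map_not (hq i).1 (hq i).2

/-- number of failures before the `x`-th success -/
noncomputable def UL (x : ℕ) (τ : ℕ → Bool) : ℕ := U x (fun i => !τ i)

lemma measurable_not : Measurable (fun (τ : ℕ → Bool) (i : ℕ) => !τ i) := by
  apply measurable_pi_lambda
  intro i
  have h1 : Measurable (fun b : Bool => !b) := measurable_of_finite _
  exact h1.comp (measurable_pi_apply i)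

lemma measurable_UL (x : ℕ) : Measurable (UL x) := (measurable_U x).comp measurable_not

lemma qq01 (i : ℕ) : 0 ≤ qq i ∧ qq i ≤ 1 :=
  ⟨by have := qq_lo i; linarith, by have := qq_hi i; linarith⟩

lemma KK_UL (f : ℕ → ℝ≥0∞) (x : ℕ) :
    KK qq UL f x = ∫⁻ τ, f (U x τ) ∂(seqLaw (fun i => 1 - qq i)) := by
  have hf : Measurable (fun τ => f (U x τ)) := (measurable_of_countable f).comp (measurable_U x)
  rw [← seqLaw_map_not qq01, lintegral_map hf measurable_not]
  rfl

lemma EU_left {x : ℕ} (hx : 2 ≤ x) :
    ∫⁻ τ, (U x τ : ℝ≥0∞) ∂(seqLaw (fun i => 1 - qq i)) ≤ x := by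
  have hi1 : Integrable (fun τ => (U x τ : ℝ)) (seqLaw (fun i => 1 - qq i)) := by
    have := (int_U1 good_qq' hx).sub (integrable_const (x:ℝ))
    refine this.congr (ae_of_all _ (fun τ => ?_))
    simp only [Pi.sub_apply]; ring
  have h1 : ∫ τ, (U x τ : ℝ) ∂(seqLaw (fun i => 1 - qq i)) ≤ x := by
    have h := E_left hx
    rw [integral_sub hi1 (integrable_const _)] at h
    simp only [integral_const, probReal_univ, one_smul] at h
    linarith
  calc ∫⁻ τ, (U x τ : ℝ≥0∞) ∂(seqLaw (fun i => 1 - qq i))
      = ∫⁻ τ, ENNReal.ofReal (U x τ : ℝ) ∂(seqLaw (fun i => 1 - qq i)) := by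
        apply lintegral_congr
        intro τ
        rw [ENNReal.ofReal_natCast]
    _ = ENNReal.ofReal (∫ τ, (U x τ : ℝ) ∂(seqLaw (fun i => 1 - qq i))) := by
        rw [ofReal_integral_eq_lintegral_ofReal hi1]
        apply ae_of_all
        intro τ
        exact Nat.cast_nonneg _
    _ ≤ ENNReal.ofReal (x : ℝ) := ENNReal.ofReal_le_ofReal h1
    _ = x := ENNReal.ofReal_natCast x

lemma EU_left' (x : ℕ) :
    ∫⁻ τ, (U x τ : ℝ≥0∞) ∂(seqLaw (fun i => 1 - qq i)) ≤ x + (if x = 1 then 1 else 0) := by
  rcases lt_or_ge x 2 with h | h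
  · interval_cases x
    · simp [U_zero]
    · have h2 := EU_left (le_refl 2)
      refine le_trans ?_ (h2.trans ?_)
      · apply lintegral_mono_ae
        filter_upwards [good_qq'.ae_inff] with τ hτ
        exact_mod_cast U_mono hτ (by norm_num : 1 ≤ 2)
      · norm_num
  · exact (EU_left h).trans (by simp)

/-- probability of dying out in one step -/
lemma prob_zero (x : ℕ) :
    (4:ℝ≥0∞)⁻¹ ^ x ≤ seqLaw (fun i => 1 - qq i) {τ | U x τ = 0} := by
  have h1 : Set.pi (Finset.range x : Set ℕ) (fun _ => ({false} : Set Bool)) ⊆ {τ | U x τ = 0} := by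
    intro τ hτ
    have h2 : ∀ i < x, τ i = false := fun i hi => by
      have := hτ i (by simpa using hi)
      simpa using this
    have h3 : ∀ n ≤ x, fails τ n = n := by
      intro n hn
      induction n with
      | zero => exact fails_zero τ
      | succ n ih => rw [fails_succ, ih (by omega), if_pos (h2 n (by omega))]
    have h4 : sInf {n | fails τ n = x} ≤ x := Nat.sInf_le (h3 x le_rfl)
    simp only [Set.mem_ofPred_eq]
    unfold U
    omega
  refine le_trans ?_ (measure_mono h1)
  unfold seqLaw
  rw [Measure.infinitePi_pi _ (fun i _ => measurableSet_singleton _)]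
  calc (4:ℝ≥0∞)⁻¹ ^ x = ∏ i ∈ Finset.range x, (4:ℝ≥0∞)⁻¹ := by simp
    _ ≤ _ := by
      apply Finset.prod_le_prod'
      intro i _
      rw [coin_real_false (by have := qq_hi i; linarith) (by have := qq_lo i; linarith)]
      have h5 : (4:ℝ≥0∞)⁻¹ = ENNReal.ofReal (1/4) := by
        rw [one_div, ENNReal.ofReal_inv_of_pos (by norm_num)]
        norm_num
      rw [h5]
      apply ENNReal.ofReal_le_ofReal
      have := qq_lo i
      linarith

/-- indicator of the positive integers -/
noncomputable def pos1 (x : ℕ) : ℝ≥0∞ := if x = 0 then 0 else 1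

/-- superharmonic function for the left chain -/
noncomputable def WW (x : ℕ) : ℝ≥0∞ := x + 4 * pos1 x

lemma KK_pos1 (x : ℕ) : KK qq UL pos1 x ≤ 1 - (4:ℝ≥0∞)⁻¹ ^ x := by
  rw [KK_UL]
  have hm : MeasurableSet {τ | U x τ = 0} := measurable_U x (measurableSet_singleton 0)
  have h1 : ∫⁻ τ, pos1 (U x τ) ∂(seqLaw (fun i => 1 - qq i))
      = seqLaw (fun i => 1 - qq i) {τ | U x τ = 0}ᶜ := by
    rw [← lintegral_indicator_one hm.compl]
    apply lintegral_congr
    intro τ
    unfold pos1
    by_cases h : U x τ = 0 <;> simp [Set.indicator, h]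
  rw [h1, prob_compl_eq_one_sub hm]
  exact tsub_le_tsub_left (prob_zero x) 1

lemma KK_WW (x : ℕ) : KK qq UL WW x ≤ WW x := by
  have h1 : KK qq UL WW x = ∫⁻ τ, (U x τ : ℝ≥0∞) ∂(seqLaw (fun i => 1 - qq i))
      + 4 * KK qq UL pos1 x := by
    rw [KK_UL, KK_UL]
    unfold WW
    rw [lintegral_add_left, lintegral_const_mul]
    · exact (measurable_of_countable pos1).comp (measurable_U x)
    · exact (measurable_of_countable (fun n : ℕ => (n : ℝ≥0∞))).comp (measurable_U x)
  rw [h1]
  rcases Nat.eq_zero_or_pos x with h | h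
  · subst h
    have h2 := EU_left' 0
    have h3 := KK_pos1 0
    simp at h2 h3
    simp [WW, pos1, h2, h3]
  · have hp : pos1 x = 1 := by unfold pos1; rw [if_neg (by omega)]
    unfold WW
    rw [hp, mul_one]
    by_cases hx : x = 1
    · subst hx
      have h2 := EU_left' 1
      have h3 := KK_pos1 1
      rw [if_pos rfl] at h2
      calc _ ≤ (((1:ℕ):ℝ≥0∞) + 1) + 4 * (1 - (4:ℝ≥0∞)⁻¹ ^ 1) := by gcongr
        _ ≤ _ := by
          rw [pow_one, ENNReal.mul_sub (by simp), ENNReal.mul_inv_cancel (by simp) (by simp)]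
          have : (4:ℝ≥0∞) * 1 - 1 = 3 := by
            rw [mul_one]
            exact ENNReal.sub_eq_of_eq_add (by simp) (by norm_num)
          rw [this]
          norm_num
    · have h2 := EU_left' x
      rw [if_neg hx, add_zero] at h2
      have h3 := KK_pos1 x
      calc _ ≤ (x:ℝ≥0∞) + 4 * 1 := by
            gcongr
            exact h3.trans tsub_le_self
        _ = _ := by rw [mul_one]

lemma KK_iter_le_one (k x : ℕ) : (KK qq UL)^[k] pos1 x ≤ 1 := by
  apply KK_iter_le (V := fun _ => 1)
  · intro x; unfold pos1; split_ifs <;> simp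
  · intro x; simp [KK]

lemma KK_iter_zero (k : ℕ) : (KK qq UL)^[k] pos1 0 = 0 := by
  induction k with
  | zero => simp [pos1]
  | succ k ih =>
    rw [Function.iterate_succ_apply']
    unfold KK
    simp only [UL, U_zero]
    unfold KK UL at ih
    simp [ih]

lemma survive (N : ℕ) (hN : 1 ≤ N) (k x : ℕ) :
    (KK qq UL)^[k] pos1 x ≤ WW x / N + (1 - (4:ℝ≥0∞)⁻¹ ^ N) ^ k * pos1 x := by
  induction k generalizing x with
  | zero => simp
  | succ k ih =>
    rcases Nat.eq_zero_or_pos x with h0 | h0
    · subst h0; rw [KK_iter_zero]; simp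
    rcases le_or_gt N x with hNx | hNx
    · refine (KK_iter_le_one _ _).trans ?_
      refine le_trans ?_ le_self_add
      rw [ENNReal.le_div_iff_mul_le (by left; simp; omega) (by left; simp), one_mul]
      unfold WW
      refine le_trans ?_ le_self_add
      exact_mod_cast hNx
    · rw [Function.iterate_succ_apply']
      refine (KK_mono ih x).trans ?_
      have hp : pos1 x = 1 := by unfold pos1; rw [if_neg (by omega)]
      have e1 : KK qq UL (fun x => WW x / N + (1 - (4:ℝ≥0∞)⁻¹ ^ N) ^ k * pos1 x) x
          = KK qq UL WW x / N + (1 - (4:ℝ≥0∞)⁻¹ ^ N) ^ k * KK qq UL pos1 x := by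
        rw [KK_UL, KK_UL, KK_UL, lintegral_add_left, lintegral_const_mul]
        · congr 1
          simp_rw [div_eq_mul_inv]
          rw [lintegral_mul_const]
          exact (measurable_of_countable WW).comp (measurable_U x)
        · exact (measurable_of_countable pos1).comp (measurable_U x)
        · exact (measurable_of_countable (fun n => WW n / (N:ℝ≥0∞))).comp (measurable_U x)
      rw [e1, hp, mul_one, pow_succ]
      gcongr
      · exact KK_WW x
      · refine (KK_pos1 x).trans ?_
        apply tsub_le_tsub_left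
        apply pow_le_pow_of_le_one zero_le _ hNx.le
        rw [ENNReal.inv_le_one]
        norm_num

/-- the left chain dies out -/
theorem left_chain (σ : ℕ → ℤ) (hσ : Function.Injective σ) (m : ℕ) :
    ∀ᵐ ω ∂(envLaw qq), ∃ k, chain UL σ m ω k = 0 := by
  rw [ae_iff]
  have hk : ∀ k, envLaw qq {ω | ¬ ∃ k, chain UL σ m ω k = 0} ≤ (KK qq UL)^[k] pos1 m := by
    intro k
    rw [← lintegral_chain (q := qq) (F := UL) measurable_UL hσ m k]
    have hm : MeasurableSet {ω | chain UL σ m ω k ≠ 0} :=
      (measurable_chain measurable_UL σ m k (measurableSet_singleton 0)).compl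
    calc _ ≤ envLaw qq {ω | chain UL σ m ω k ≠ 0} := by
          apply measure_mono
          intro ω hω hk
          exact hω ⟨k, hk⟩
      _ = _ := by
          rw [← lintegral_indicator_one hm]
          apply lintegral_congr
          intro ω
          unfold pos1
          by_cases h : chain UL σ m ω k = 0 <;> simp [Set.indicator, h]
  have hN : ∀ N : ℕ, 1 ≤ N → envLaw qq {ω | ¬ ∃ k, chain UL σ m ω k = 0} ≤ WW m / N := by
    intro N hN
    have h1 : Tendsto (fun k : ℕ => WW m / N + (1 - (4:ℝ≥0∞)⁻¹ ^ N) ^ k * pos1 m) atTop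
        (𝓝 (WW m / N + 0 * pos1 m)) := by
      apply Tendsto.const_add
      apply ENNReal.Tendsto.mul_const
      · apply ENNReal.tendsto_pow_atTop_nhds_zero_of_lt_one
        apply ENNReal.sub_lt_self (by simp) (by simp)
        exact pow_ne_zero N (by simp)
      · right
        unfold pos1
        split_ifs <;> simp
    rw [zero_mul, add_zero] at h1
    exact ge_of_tendsto' h1 (fun k => (hk k).trans (survive N hN k m))
  have h2 : Tendsto (fun N : ℕ => WW m / (N:ℝ≥0∞)) atTop (𝓝 0) := by
    have h3 : Tendsto (fun N : ℕ => (N:ℝ≥0∞)) atTop (𝓝 ⊤) := ENNReal.tendsto_nat_nhds_top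
    have h4 := ENNReal.Tendsto.const_div (a := WW m) h3 (by
      right
      unfold WW pos1
      split_ifs <;> simp [ENNReal.add_eq_top])
    simpa using h4
  refine le_antisymm ?_ zero_le
  apply ge_of_tendsto h2
  filter_upwards [eventually_ge_atTop 1] with N hN'
  exact hN N hN'

end Pool.Agent.D0H97.ERW
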