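import Pool.Agent.D0H97.ERW.Stop

set_option autoImplicit false

open MeasureTheory ProbabilityTheory Filter Topology
open scoped ENNReal BigOperators

namespace Pool.Agent.D0H97.ERW

/-- the number of failures among the first `n` trials -/
def fails (τ : ℕ → Bool) (n : ℕ) : ℕ := ((Finset.range n).filter (fun i => τ i = false)).card

lemma fails_zero (τ : ℕ → Bool) : fails τ 0 = 0 := by simp [fails]

lemma fails_succ (τ : ℕ → Bool) (n : ℕ) :
    fails τ (n + 1) = fails τ n + (if τ n = false then 1 else 0) := by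
  unfold fails
  rw [Finset.range_add_one, Finset.filter_insert]
  split_ifs with h
  · rw [Finset.card_insert_of_notMem (by simp)]
  · rfl

lemma fails_mono (τ : ℕ → Bool) : Monotone (fails τ) := by
  apply monotone_nat_of_le_succ
  intro n
  rw [fails_succ]
  omega

lemma fails_le (τ : ℕ → Bool) (n : ℕ) : fails τ n ≤ n := by
  unfold fails
  exact (Finset.card_filter_le _ _).trans (by simp)

lemma dep_fails (n : ℕ) : Dep n (fun τ => fails τ n) := by
  intro τ τ' h
  simp only [fails]
  congr 1
  apply Finset.filter_congr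
  intro i hi
  rw [h i (Finset.mem_range.1 hi)]

/-- successes before the `x`-th failure, among the first `n` trials -/
def su (x : ℕ) (τ : ℕ → Bool) : ℕ → ℕ
  | 0 => 0
  | (n + 1) => su x τ n + (if fails τ n < x ∧ τ n = true then 1 else 0)

/-- failures until the `x`-th, among the first `n` trials -/
def fa (x : ℕ) (τ : ℕ → Bool) : ℕ → ℕ
  | 0 => 0
  | (n + 1) => fa x τ n + (if fails τ n < x ∧ τ n = false then 1 else 0)

/-- trials until the `x`-th failure, among the first `n` trials -/
def al (x : ℕ) (τ : ℕ → Bool) : ℕ → ℕ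
  | 0 => 0
  | (n + 1) => al x τ n + (if fails τ n < x then 1 else 0)

lemma su_add_fa (x : ℕ) (τ : ℕ → Bool) (n : ℕ) : su x τ n + fa x τ n = al x τ n := by
  induction n with
  | zero => rfl
  | succ n ih =>
    simp only [su, fa, al]
    rw [← ih]
    by_cases h1 : fails τ n < x <;> cases h2 : τ n <;> simp [h1] <;> omega

lemma fa_eq (x : ℕ) (τ : ℕ → Bool) (n : ℕ) : fa x τ n = min (fails τ n) x := by
  induction n with
  | zero => simp [fa, fails_zero]
  | succ n ih =>
    simp only [fa]
    rw [ih, fails_succ]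
    by_cases h1 : fails τ n < x <;> cases h2 : τ n <;> simp [h1] <;> omega

lemma fa_le (x : ℕ) (τ : ℕ → Bool) (n : ℕ) : fa x τ n ≤ x := by
  rw [fa_eq]; exact min_le_right _ _

lemma su_mono (x : ℕ) (τ : ℕ → Bool) : Monotone (su x τ) := by
  apply monotone_nat_of_le_succ
  intro n
  simp only [su]
  omega

/-- the time of the `x`-th failure -/
noncomputable def Tx (x : ℕ) (τ : ℕ → Bool) : ℕ := sInf {n | fails τ n = x}

/-- the number of successes before the `x`-th failure -/
noncomputable def U (x : ℕ) (τ : ℕ → Bool) : ℕ := sInf {n | fails τ n = x} - x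

/-- infinitely many failures -/
def Inff (τ : ℕ → Bool) : Prop := ∀ k, ∃ n, fails τ n = k

lemma fails_Tx {τ : ℕ → Bool} (h : Inff τ) (x : ℕ) : fails τ (Tx x τ) = x :=
  Nat.sInf_mem (s := {n | fails τ n = x}) (h x)

lemma fails_lt_iff {τ : ℕ → Bool} (h : Inff τ) (x n : ℕ) : fails τ n < x ↔ n < Tx x τ := by
  constructor
  · intro h1
    by_contra h2
    push Not at h2
    have := fails_mono τ h2
    rw [fails_Tx h] at this
    omega
  · intro h1
    have h2 : fails τ n ≤ x := by
      have := fails_mono τ h1.le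
      rwa [fails_Tx h] at this
    rcases h2.lt_or_eq with h3 | h3
    · exact h3
    · exfalso
      have : Tx x τ ≤ n := Nat.sInf_le h3
      omega

lemma al_eq {τ : ℕ → Bool} (h : Inff τ) (x n : ℕ) : al x τ n = min n (Tx x τ) := by
  induction n with
  | zero => simp [al]
  | succ n ih =>
    simp only [al]
    rw [ih, if_congr (fails_lt_iff h x n) rfl rfl]
    split_ifs with h1 <;> omega

lemma su_eq {τ : ℕ → Bool} (h : Inff τ) {x n : ℕ} (hn : Tx x τ ≤ n) : su x τ n = U x τ := by
  have h1 := su_add_fa x τ n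
  rw [al_eq h, min_eq_right hn] at h1
  have h2 : fa x τ n = x := by
    rw [fa_eq]
    have := fails_mono τ hn
    rw [fails_Tx h] at this
    exact min_eq_right this
  rw [h2] at h1
  unfold U
  have h3 : sInf {n | fails τ n = x} = Tx x τ := rfl
  rw [h3]
  omega

lemma fa_eq_x {τ : ℕ → Bool} (h : Inff τ) {x n : ℕ} (hn : Tx x τ ≤ n) : fa x τ n = x := by
  rw [fa_eq]
  have := fails_mono τ hn
  rw [fails_Tx h] at this
  exact min_eq_right this

lemma su_le_U {τ : ℕ → Bool} (h : Inff τ) (x n : ℕ) : su x τ n ≤ U x τ := by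
  rcases le_total (Tx x τ) n with h1 | h1
  · exact (su_eq h h1).le
  · rw [← su_eq h (le_refl (Tx x τ))]
    exact su_mono x τ h1

lemma Tx_eq {τ : ℕ → Bool} (h : Inff τ) (x : ℕ) : Tx x τ = U x τ + x := by
  have h1 : x ≤ Tx x τ := by
    have := fails_le τ (Tx x τ)
    rwa [fails_Tx h] at this
  have h3 : sInf {n | fails τ n = x} = Tx x τ := rfl
  unfold U
  rw [h3]
  omega

lemma dep_succ_aux {n : ℕ} {τ τ' : ℕ → Bool} (h : ∀ i < n + 1, τ i = τ' i) :
    (∀ i < n, τ i = τ' i) ∧ τ n = τ' n :=
  ⟨fun i hi => h i (by omega), h n (by omega)⟩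

lemma dep_su (x n : ℕ) : Dep n (fun τ => su x τ n) := by
  induction n with
  | zero => intro τ τ' _; rfl
  | succ n ih =>
    intro τ τ' h
    obtain ⟨h1, h2⟩ := dep_succ_aux h
    simp only [su]
    have e1 : su x τ n = su x τ' n := ih τ τ' h1
    have e2 : fails τ n = fails τ' n := dep_fails n τ τ' h1
    rw [e1, e2, h2]

lemma dep_fa (x n : ℕ) : Dep n (fun τ => fa x τ n) := by
  intro τ τ' h
  have e2 : fails τ n = fails τ' n := dep_fails n τ τ' h
  simp only [fa_eq, e2]

lemma dep_al (x n : ℕ) : Dep n (fun τ => al x τ n) := by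
  intro τ τ' h
  have e1 : su x τ n = su x τ' n := dep_su x n τ τ' h
  have e2 : fa x τ n = fa x τ' n := dep_fa x n τ τ' h
  simp only [← su_add_fa, e1, e2]

/-- the stopped walk -/
noncomputable def Y (x n : ℕ) (τ : ℕ → Bool) : ℝ := (su x τ n : ℝ) - fa x τ n

/-- the indicator of: less than `x` failures in the first `n` trials -/
noncomputable def A (x n : ℕ) (τ : ℕ → Bool) : ℝ := if fails τ n < x then 1 else 0

lemma dep_Y (x n : ℕ) : Dep n (Y x n) := by
  intro τ τ' h
  have e1 : su x τ n = su x τ' n := dep_su x n τ τ' h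
  have e2 : fa x τ n = fa x τ' n := dep_fa x n τ τ' h
  simp only [Y, e1, e2]

lemma dep_A (x n : ℕ) : Dep n (A x n) := by
  intro τ τ' h
  have e2 : fails τ n = fails τ' n := dep_fails n τ τ' h
  simp only [A, e2]

/-- sign of a trial -/
noncomputable def sg (b : Bool) : ℝ := if b then 1 else -1

lemma Y_zero (x : ℕ) (τ : ℕ → Bool) : Y x 0 τ = 0 := by simp [Y, su, fa]

lemma Y_succ (x n : ℕ) (τ : ℕ → Bool) : Y x (n + 1) τ = Y x n τ + A x n τ * sg (τ n) := by
  simp only [Y, su, fa, A, sg]
  by_cases h1 : fails τ n < x <;> cases h2 : τ n <;> simp [h1] <;> ring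

lemma al_cast (x n : ℕ) (τ : ℕ → Bool) : (al x τ n : ℝ) = ∑ i ∈ Finset.range n, A x i τ := by
  induction n with
  | zero => simp [al]
  | succ n ih =>
    rw [Finset.sum_range_succ, ← ih]
    simp only [al, A]
    push_cast
    rfl

lemma A_nonneg (x n : ℕ) (τ : ℕ → Bool) : 0 ≤ A x n τ := by
  unfold A; split_ifs <;> norm_num

lemma A_le_one (x n : ℕ) (τ : ℕ → Bool) : A x n τ ≤ 1 := by
  unfold A; split_ifs <;> norm_num

lemma A_sq (x n : ℕ) (τ : ℕ → Bool) : A x n τ * A x n τ = A x n τ := by
  unfold A; split_ifs <;> norm_num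

lemma sum_A {τ : ℕ → Bool} (h : Inff τ) (δ : ℕ → ℝ) (x n : ℕ) :
    ∑ i ∈ Finset.range n, δ i * A x i τ = ∑ i ∈ Finset.range (min n (Tx x τ)), δ i := by
  induction n with
  | zero => simp
  | succ n ih =>
    rw [Finset.sum_range_succ, ih]
    unfold A
    rw [if_congr (fails_lt_iff h x n) rfl rfl]
    split_ifs with h1
    · rw [min_eq_left (by omega), min_eq_left (by omega), Finset.sum_range_succ, mul_one]
    · rw [mul_zero, add_zero]
      congr 2
      omega

end Pool.Agent.D0H97.ERW
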