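import Pool.Agent.D0H97.ERW.Lim

set_option autoImplicit false

open MeasureTheory ProbabilityTheory Filter Topology
open scoped ENNReal BigOperators

namespace Pool.Agent.D0H97.ERW

/-- accumulated drift of the first `n` cookies: `n / 2` for `n ≤ 4`, and
`1 + 4 / (4 + log (n - 3))` afterwards -/
noncomputable def Dd (n : ℕ) : ℝ :=
  if n ≤ 4 then (n : ℝ) / 2 else 1 + 4 / (4 + Real.log ((n : ℝ) - 3))

/-- the success probability of the trial number `i` (counted from `0`) -/
noncomputable def qq (i : ℕ) : ℝ := 1 / 2 + (Dd (i + 1) - Dd i) / 2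

lemma Dd_ge {n : ℕ} (hn : 4 ≤ n) : Dd n = 1 + 4 / (4 + Real.log ((n : ℝ) - 3)) := by
  unfold Dd
  split_ifs with h
  · have : n = 4 := by omega
    subst this
    norm_num
  · rfl

lemma log_nn {n : ℕ} (hn : 4 ≤ n) : 0 ≤ Real.log ((n : ℝ) - 3) := by
  apply Real.log_nonneg
  have : (4 : ℝ) ≤ n := by exact_mod_cast hn
  linarith

lemma Dd_nonneg (n : ℕ) : 0 ≤ Dd n := by
  unfold Dd
  split_ifs with h
  · positivity
  · have := log_nn (n := n) (by omega)
    positivity

lemma Dd_anti {n : ℕ} (hn : 4 ≤ n) : Dd (n + 1) ≤ Dd n := by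
  rw [Dd_ge hn, Dd_ge (by omega)]
  have h1 := log_nn hn
  have h4 : (4 : ℝ) ≤ n := by exact_mod_cast hn
  have h2 : Real.log ((n : ℝ) - 3) ≤ Real.log (((n + 1 : ℕ) : ℝ) - 3) := by
    apply Real.log_le_log (by linarith)
    push_cast
    linarith
  gcongr

lemma Dd_diff {n : ℕ} (hn : 4 ≤ n) : Dd n - Dd (n + 1) ≤ 1 / 2 := by
  rw [Dd_ge hn, Dd_ge (by omega)]
  have h1 := log_nn hn
  have h1' := log_nn (n := n + 1) (by omega)
  have h4 : (4 : ℝ) ≤ n := by exact_mod_cast hn
  set a := Real.log ((n : ℝ) - 3) with ha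
  set b := Real.log (((n + 1 : ℕ) : ℝ) - 3) with hb
  have h3 : b - a ≤ 1 := by
    rw [ha, hb, ← Real.log_div (by push_cast; linarith) (by linarith)]
    refine (Real.log_le_sub_one_of_pos ?_).trans ?_
    · apply div_pos
      · push_cast; linarith
      · linarith
    · rw [sub_le_iff_le_add, div_le_iff₀ (by linarith)]
      push_cast
      linarith
  have e : (1 + 4 / (4 + a)) - (1 + 4 / (4 + b)) = 4 * (b - a) / ((4 + a) * (4 + b)) := by
    field_simp
    ring
  rw [e, div_le_iff₀ (by positivity)]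
  nlinarith [mul_nonneg h1 h1']

lemma two_qq (i : ℕ) : 2 * qq i - 1 = Dd (i + 1) - Dd i := by unfold qq; ring

lemma D_qq (n : ℕ) : D qq n = Dd n := by
  unfold D
  simp_rw [two_qq]
  rw [Finset.sum_range_sub]
  simp [Dd]

lemma Dd_small {i : ℕ} (hi : i < 4) : Dd (i + 1) - Dd i = 1 / 2 := by
  unfold Dd
  rw [if_pos (by omega), if_pos (by omega)]
  push_cast
  ring

lemma qq_lo (i : ℕ) : 1 / 4 ≤ qq i := by
  unfold qq
  rcases lt_or_ge i 4 with h | h
  · rw [Dd_small h]; norm_num
  · have := Dd_diff h; linarith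

lemma qq_hi (i : ℕ) : qq i ≤ 3 / 4 := by
  unfold qq
  rcases lt_or_ge i 4 with h | h
  · rw [Dd_small h]; norm_num
  · have := Dd_anti h; linarith

lemma sum_abs_qq (n : ℕ) : ∑ i ∈ Finset.range n, |2 * qq i - 1| ≤ 3 := by
  have key : ∀ m, ∑ i ∈ Finset.range (4 + m), |2 * qq i - 1| = 4 - Dd (4 + m) := by
    intro m
    induction m with
    | zero =>
      simp only [add_zero]
      have : ∀ i ∈ Finset.range 4, |2 * qq i - 1| = 1 / 2 := by
        intro i hi
        rw [two_qq, Dd_small (Finset.mem_range.1 hi)]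
        norm_num
      rw [Finset.sum_congr rfl this]
      unfold Dd
      norm_num
    | succ m ih =>
      rw [← add_assoc, Finset.sum_range_succ, ih, two_qq, abs_of_nonpos]
      · ring
      · have := Dd_anti (n := 4 + m) (by omega); linarith
  have hmono : ∑ i ∈ Finset.range n, |2 * qq i - 1| ≤ ∑ i ∈ Finset.range (4 + n), |2 * qq i - 1| := by
    apply Finset.sum_le_sum_of_subset_of_nonneg
    · intro i hi
      rw [Finset.mem_range] at *
      omega
    · intro i _ _; positivity
  refine hmono.trans ?_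
  rw [key]
  have h1 : 1 ≤ Dd (4 + n) := by
    rw [Dd_ge (by omega)]
    have := log_nn (n := 4 + n) (by omega)
    have h2 : 0 ≤ 4 / (4 + Real.log (((4 + n : ℕ) : ℝ) - 3)) := by positivity
    linarith
  linarith

lemma good_qq : Good qq (1 / 4) 3 :=
  ⟨by norm_num, qq_lo, fun i => (qq_hi i).trans (by norm_num), sum_abs_qq⟩

lemma good_qq' : Good (fun i => 1 - qq i) (1 / 4) 3 :=
  ⟨by norm_num, fun i => by have := qq_hi i; linarith, fun i => by have := qq_lo i; linarith,
    fun n => by
      have h : ∀ i, |2 * (1 - qq i) - 1| = |2 * qq i - 1| := fun i => by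
        rw [← abs_neg]; congr 1; ring
      simp_rw [h]
      exact sum_abs_qq n⟩

lemma D_qq' (n : ℕ) : D (fun i => 1 - qq i) n = - Dd n := by
  rw [← D_qq]
  unfold D
  rw [← Finset.sum_neg_distrib]
  apply Finset.sum_congr rfl
  intro i _
  ring

/-- for the failures the drift is negative -/
lemma E_left {x : ℕ} (hx : 2 ≤ x) :
    ∫ τ, ((U x τ : ℝ) - x) ∂(seqLaw (fun i => 1 - qq i)) ≤ 0 := by
  rw [E_first good_qq' hx]
  apply integral_nonpos
  intro τ
  simp only [D_qq', Pi.zero_apply]
  have := Dd_nonneg (Tx x τ)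
  linarith

lemma measurable_D (q : ℕ → ℝ) (x : ℕ) : Measurable (fun τ => D q (Tx x τ)) :=
  (measurable_of_countable (D q)).comp (measurable_Tx x)

lemma integrable_D {q : ℕ → ℝ} {ε C0 : ℝ} (hq : Good q ε C0) (x : ℕ) :
    Integrable (fun τ => D q (Tx x τ)) (seqLaw q) :=
  Integrable.of_bound (measurable_D q x).aestronglyMeasurable C0
    (ae_of_all _ (fun τ => by rw [Real.norm_eq_abs]; exact hq.abs_D _))

lemma integrable_T {q : ℕ → ℝ} {ε C0 : ℝ} (hq : Good q ε C0) {x : ℕ} (hx : 2 ≤ x) :
    Integrable (fun τ => (Tx x τ : ℝ)) (seqLaw q) := by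
  apply (int_U1 hq hx).congr
  filter_upwards [hq.ae_inff] with τ hτ
  rw [Tx_eq hτ]; push_cast; ring

/-- bounds on the drift of the environment -/
lemma rho_bounds {x : ℕ} (hx : 5 ≤ x) :
    1 + 4 / (4 + Real.log (2 * x + 3)) ≤ ∫ τ, ((U x τ : ℝ) - x) ∂(seqLaw qq) ∧
    ∫ τ, ((U x τ : ℝ) - x) ∂(seqLaw qq) ≤ 1 + 4 / (4 + Real.log ((x : ℝ) - 3)) := by
  have hx2 : 2 ≤ x := by omega
  have hx5 : (5 : ℝ) ≤ x := by exact_mod_cast hx
  have hfirst := E_first good_qq hx2
  have hTx : ∀ τ, Inff τ → x ≤ Tx x τ := fun τ hτ => by rw [Tx_eq hτ]; omega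
  constructor
  · set N0 : ℝ := 2 * x + 3 with hN0
    set A : ℝ := 4 + Real.log N0 with hA
    have hN0pos : 0 < N0 := by positivity
    have hlogN0 : 0 ≤ Real.log N0 := Real.log_nonneg (by linarith)
    have hApos : 0 < A := by positivity
    have hET : ∫ τ, (Tx x τ : ℝ) ∂(seqLaw qq) ≤ N0 := by
      rw [E_T good_qq hx2, hfirst]
      have : ∫ τ, D qq (Tx x τ) ∂(seqLaw qq) ≤ 3 := by
        calc _ ≤ ∫ _τ, (3:ℝ) ∂(seqLaw qq) := by
              apply integral_mono (integrable_D good_qq x) (integrable_const _)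
              intro τ
              exact (le_abs_self _).trans (good_qq.abs_D _)
          _ = 3 := by simp
      linarith
    rw [hfirst]
    have hpt : ∀ᵐ τ ∂(seqLaw qq),
        1 + 4 * (1 / A - ((Tx x τ : ℝ) - N0) / N0 / A ^ 2) ≤ D qq (Tx x τ) := by
      filter_upwards [good_qq.ae_inff] with τ hτ
      have hT := hTx τ hτ
      rw [D_qq, Dd_ge (by omega)]
      have hT5 : (x : ℝ) ≤ (Tx x τ : ℝ) := by exact_mod_cast hT
      set T : ℝ := (Tx x τ : ℝ) with hTdef
      have h1 : Real.log (T - 3) ≤ Real.log N0 + (T - N0) / N0 := by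
        have h2 : Real.log (T - 3) ≤ Real.log T := Real.log_le_log (by linarith) (by linarith)
        have h3 : Real.log (T / N0) ≤ T / N0 - 1 :=
          Real.log_le_sub_one_of_pos (by apply div_pos <;> linarith)
        rw [Real.log_div (by linarith) hN0pos.ne'] at h3
        have h4 : (T - N0) / N0 = T / N0 - 1 := by field_simp
        rw [h4]
        linarith
      have h5 : 0 ≤ Real.log (T - 3) := Real.log_nonneg (by linarith)
      set z := (T - N0) / N0
      have h6 : 0 < A + z := by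
        have : 4 + Real.log (T - 3) ≤ A + z := by rw [hA]; linarith
        linarith
      have h7 : 1 / A - z / A ^ 2 ≤ 1 / (4 + Real.log (T - 3)) := by
        have h8 : 1 / (A + z) ≤ 1 / (4 + Real.log (T - 3)) := by
          apply one_div_le_one_div_of_le (by linarith)
          rw [hA]; linarith
        refine le_trans ?_ h8
        have h9 : 1 / A - z / A ^ 2 = (A - z) / A ^ 2 := by
          field_simp
        rw [h9, div_le_div_iff₀ (by positivity) h6]
        nlinarith [sq_nonneg z]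
      have h10 : 4 / (4 + Real.log (T - 3)) = 4 * (1 / (4 + Real.log (T - 3))) := by ring
      rw [h10]
      linarith
    have hint : Integrable (fun τ => 1 + 4 * (1 / A - ((Tx x τ : ℝ) - N0) / N0 / A ^ 2))
        (seqLaw qq) := by
      have := integrable_T good_qq hx2
      fun_prop
    have hle := integral_mono_ae hint (integrable_D good_qq x) hpt
    refine le_trans ?_ hle
    have e1 : ∀ τ, 1 + 4 * (1 / A - ((Tx x τ : ℝ) - N0) / N0 / A ^ 2)
        = (1 + 4 / A + 4 / A ^ 2) - (4 / (N0 * A ^ 2)) * (Tx x τ : ℝ) := by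
      intro τ
      field_simp
      ring
    simp_rw [e1]
    rw [integral_sub (integrable_const _) ((integrable_T good_qq hx2).const_mul _),
      integral_const_mul]
    simp only [integral_const, probReal_univ, one_smul]
    have h11 : 4 / (N0 * A ^ 2) * ∫ τ, (Tx x τ : ℝ) ∂(seqLaw qq) ≤ 4 / A ^ 2 := by
      calc _ ≤ 4 / (N0 * A ^ 2) * N0 := mul_le_mul_of_nonneg_left hET (by positivity)
        _ = _ := by field_simp
    linarith
  · rw [hfirst]
    have hlog : 0 ≤ Real.log ((x : ℝ) - 3) := Real.log_nonneg (by linarith)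
    calc ∫ τ, D qq (Tx x τ) ∂(seqLaw qq)
        ≤ ∫ _τ, (1 + 4 / (4 + Real.log ((x : ℝ) - 3))) ∂(seqLaw qq) := by
          apply integral_mono_ae (integrable_D good_qq x) (integrable_const _)
          filter_upwards [good_qq.ae_inff] with τ hτ
          have hT := hTx τ hτ
          have hT5 : (x : ℝ) ≤ (Tx x τ : ℝ) := by exact_mod_cast hT
          rw [D_qq, Dd_ge (by omega)]
          have : Real.log ((x : ℝ) - 3) ≤ Real.log ((Tx x τ : ℝ) - 3) :=
            Real.log_le_log (by linarith) (by linarith)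
          gcongr
      _ = _ := by simp

end Pool.Agent.D0H97.ERW
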