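import Pool.Agent.D0H97.ERW.Law

set_option autoImplicit false

open MeasureTheory ProbabilityTheory Filter Topology
open scoped ENNReal BigOperators

namespace Pool.Agent.D0H97.ERW

lemma cnt_congr {x x' : ℕ → ℤ} {n : ℕ} (h : ∀ k < n, x k = x' k) (y : ℤ) :
    cnt x n y = cnt x' n y := by
  unfold cnt
  congr 1
  apply Finset.filter_congr
  intro k hk
  rw [h k (Finset.mem_range.1 hk)]

/-- extending a path by one step -/
lemma stack_step (x : ℕ → ℤ) (n : ℕ) (z : ℤ) (hz : z = x n + 1 ∨ z = x n - 1) :
    envLaw qq {ω | (∀ k ≤ n, W ω k = x k) ∧ W ω (n + 1) = z}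
      = coin (qq (cnt x n (x n))) {decide (z = x n + 1)} * envLaw qq {ω | ∀ k ≤ n, W ω k = x k} := by
  by_cases hx : IsPath x n
  · set x' : ℕ → ℤ := Function.update x (n + 1) z with hx'
    have h1 : ∀ k ≤ n, x' k = x k := by
      intro k hk
      rw [hx', Function.update_of_ne (by omega)]
    have h2 : x' (n + 1) = z := by rw [hx', Function.update_self]
    have hp : IsPath x' (n + 1) := by
      refine ⟨by rw [h1 0 (Nat.zero_le _), hx.1], fun i hi => ?_⟩
      rcases Nat.lt_succ_iff_lt_or_eq.1 hi with h3 | h3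
      · rw [h1 i h3.le, h1 (i + 1) h3]
        exact hx.2 i h3
      · subst h3
        rw [h2, h1 i le_rfl]
        exact hz
    have hset : {ω : ℤ → ℕ → Bool | (∀ k ≤ n, W ω k = x k) ∧ W ω (n + 1) = z}
        = {ω | ∀ k ≤ n + 1, W ω k = x' k} := by
      ext ω
      simp only [Set.mem_ofPred_eq]
      constructor
      · rintro ⟨h3, h4⟩ k hk
        rcases Nat.le_succ_iff.1 hk with h5 | h5
        · rw [h1 k h5]; exact h3 k h5
        · rw [h5, h2]; exact h4
      · intro h3
        refine ⟨fun k hk => ?_, ?_⟩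
        · rw [h3 k (by omega), h1 k hk]
        · rw [h3 _ le_rfl, h2]
    rw [hset, prob_path hp, prob_path hx, Finset.prod_range_succ, mul_comm]
    have e1 : cnt x' n (x' n) = cnt x n (x n) := by
      rw [h1 n le_rfl]
      exact cnt_congr (fun k hk => h1 k (by omega)) _
    rw [e1, h2, h1 n le_rfl]
    congr 1
    apply Finset.prod_congr rfl
    intro i hi
    have hi' := Finset.mem_range.1 hi
    have e2 : cnt x' i (x' i) = cnt x i (x i) := by
      rw [h1 i hi'.le]
      exact cnt_congr (fun k hk => h1 k (by omega)) _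
    rw [e2, h1 i hi'.le, h1 (i + 1) hi']
  · rw [prob_not_path hx, mul_zero]
    refine measure_mono_null ?_ (prob_not_path (q := qq) hx)
    intro ω hω
    exact hω.1

/-- the walk driven by stacks is an excited random walk -/
theorem isERW_W : IsERW pp (envLaw qq) (fun n ω => W ω n) where
  meas := measurable_W
  start := ae_of_all _ (fun _ => rfl)
  right := by
    intro x n
    have hv : pp (visits x n) = qq (cnt x n (x n)) := by
      rw [visits_eq]; rfl
    rw [stack_step x n (x n + 1) (Or.inl rfl), hv]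
    simp only [decide_true]
    rw [coin_real_true (qq01 _).1 (qq01 _).2]
  left := by
    intro x n
    have hv : pp (visits x n) = qq (cnt x n (x n)) := by
      rw [visits_eq]; rfl
    rw [stack_step x n (x n - 1) (Or.inr rfl), hv]
    have : decide (x n - 1 = x n + 1) = false := by
      rw [decide_eq_false_iff_not]; omega
    rw [this, coin_real_false (qq01 _).1 (qq01 _).2]

lemma ae_nice : ∀ᵐ ω ∂(envLaw qq), Nice ω := by
  unfold Nice
  rw [ae_all_iff]
  intro y
  have hlaw : (envLaw qq).map (fun ω : ℤ → ℕ → Bool => ω y) = seqLaw qq := by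
    unfold envLaw
    exact Measure.infinitePi_map_eval _ y
  have hm : Measurable (fun ω : ℤ → ℕ → Bool => ω y) := measurable_pi_apply y
  have h1 : ∀ᵐ ω ∂(envLaw qq), Inff (ω y) := by
    have := good_qq.ae_inff
    rw [← hlaw] at this
    exact ae_of_ae_map hm.aemeasurable this
  have h2 : ∀ᵐ ω ∂(envLaw qq), Inff (fun i => !ω y i) := by
    have := good_qq'.ae_inff
    rw [← seqLaw_map_not qq01] at this
    have h3 := ae_of_ae_map measurable_not.aemeasurable this
    rw [← hlaw] at h3
    exact ae_of_ae_map hm.aemeasurable h3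
  filter_upwards [h1, h2] with ω a b
  exact ⟨a, b⟩

lemma ae_right : ∀ᵐ ω ∂(envLaw qq), ∃ m, ∀ n, Lf ω n 1 < m := by
  rw [ae_iff]
  obtain ⟨V, hV, h⟩ := right_chain
  have h1 : ∀ m : ℕ, 1 ≤ m → envLaw qq {ω | ¬ ∃ m, ∀ n, Lf ω n 1 < m} ≤ ENNReal.ofReal (V m) := by
    intro m hm
    refine le_trans (measure_mono ?_) (h (fun k => (k : ℤ) + 1) ?_ m)
    · intro ω hω
      simp only [Set.mem_ofPred_eq] at hω ⊢
      push Not at hω
      obtain ⟨n, hn⟩ := hω m
      exact right_claim hm hn
    · intro a b hab
      simp only at hab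
      omega
  have h2 : Tendsto (fun m => ENNReal.ofReal (V m)) atTop (𝓝 0) := by
    have := ENNReal.tendsto_ofReal hV
    rwa [ENNReal.ofReal_zero] at this
  refine le_antisymm ?_ zero_le
  apply ge_of_tendsto h2
  filter_upwards [eventually_ge_atTop 1] with m hm
  exact h1 m hm

/-- the walk driven by stacks is transient to the right -/
theorem W_transient : ∀ᵐ ω ∂(envLaw qq), Tendsto (W ω) atTop atTop := by
  have h3 : ∀ᵐ ω ∂(envLaw qq), ∀ m, ∃ k, chain UL (fun k => -((k : ℤ) + 1)) m ω k = 0 := by
    rw [ae_all_iff]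
    intro m
    apply left_chain
    intro a b hab
    simp only at hab
    omega
  filter_upwards [ae_nice, ae_right, h3] with ω a b c
  exact W_tendsto a b c

lemma measurableSet_tendsto : MeasurableSet {y : ℕ → ℤ | Tendsto y atTop atTop} := by
  have : {y : ℕ → ℤ | Tendsto y atTop atTop} = ⋂ B : ℤ, ⋃ N : ℕ, ⋂ n ∈ Set.Ici N, {y | B ≤ y n} := by
    ext y
    simp only [Set.mem_ofPred_eq, Set.mem_iInter, Set.mem_iUnion, Set.mem_Ici, tendsto_atTop,
      eventually_atTop]
  rw [this]
  apply MeasurableSet.iInter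
  intro B
  apply MeasurableSet.iUnion
  intro N
  apply MeasurableSet.biInter (Set.to_countable _)
  intro n _
  exact measurableSet_le measurable_const (measurable_pi_apply n)

/-- every excited random walk in this environment is transient to the right -/
theorem IsERW.transient {Ω : Type} [MeasurableSpace Ω] {P : Measure Ω} [IsProbabilityMeasure P]
    {X : ℕ → Ω → ℤ} (h : IsERW pp P X) : ∀ᵐ w ∂P, Tendsto (fun n => X n w) atTop atTop := by
  have hlaw := law_unique h.meas measurable_W h.prob
  have m₁ : Measurable (fun w n => X n w) := measurable_pi_lambda _ h.meas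
  have m₂ : Measurable (fun (ω : ℤ → ℕ → Bool) n => W ω n) := measurable_pi_lambda _ measurable_W
  have h1 : ∀ᵐ y ∂((envLaw qq).map (fun (ω : ℤ → ℕ → Bool) n => W ω n)),
      Tendsto y atTop atTop := by
    rw [ae_map_iff m₂.aemeasurable measurableSet_tendsto]
    exact W_transient
  rw [← hlaw] at h1
  exact ae_of_ae_map m₁.aemeasurable h1

end Pool.Agent.D0H97.ERW
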