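import Pool.Agent.D0H97.ERW.Walk

set_option autoImplicit false

open MeasureTheory ProbabilityTheory Filter Topology
open scoped ENNReal BigOperators

namespace Pool.Agent.D0H97.ERW

/-- `visits x n` is the number of `k ≤ n` with `x k = x n` -/
def visits (x : ℕ → ℤ) (n : ℕ) : ℕ := ((Finset.range (n + 1)).filter (fun k => x k = x n)).card

/-- Excited random walk in the identically piled environment `p`. -/
structure IsERW (p : ℕ → ℝ) {Ω : Type} [MeasurableSpace Ω] (P : Measure Ω)
    (X : ℕ → Ω → ℤ) : Prop where
  meas : ∀ n, Measurable (X n)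
  start : ∀ᵐ w ∂P, X 0 w = 0
  right : ∀ (x : ℕ → ℤ) (n : ℕ),
    P {w | (∀ k ≤ n, X k w = x k) ∧ X (n + 1) w = x n + 1}
      = ENNReal.ofReal (p (visits x n)) * P {w | ∀ k ≤ n, X k w = x k}
  left : ∀ (x : ℕ → ℤ) (n : ℕ),
    P {w | (∀ k ≤ n, X k w = x k) ∧ X (n + 1) w = x n - 1}
      = ENNReal.ofReal (1 - p (visits x n)) * P {w | ∀ k ≤ n, X k w = x k}

/-- laws on path space are determined by the probabilities of finite paths -/
lemma law_unique {Ω₁ Ω₂ : Type*} [MeasurableSpace Ω₁] [MeasurableSpace Ω₂] {P₁ : Measure Ω₁}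
    {P₂ : Measure Ω₂} [IsProbabilityMeasure P₁] [IsProbabilityMeasure P₂] {X₁ : ℕ → Ω₁ → ℤ}
    {X₂ : ℕ → Ω₂ → ℤ} (h₁ : ∀ n, Measurable (X₁ n)) (h₂ : ∀ n, Measurable (X₂ n))
    (h : ∀ (x : ℕ → ℤ) (n : ℕ), P₁ {w | ∀ k ≤ n, X₁ k w = x k} = P₂ {w | ∀ k ≤ n, X₂ k w = x k}) :
    P₁.map (fun w n => X₁ n w) = P₂.map (fun w n => X₂ n w) := by
  have m₁ : Measurable (fun w n => X₁ n w) := measurable_pi_lambda _ h₁
  have m₂ : Measurable (fun w n => X₂ n w) := measurable_pi_lambda _ h₂
  have : IsProbabilityMeasure (P₁.map (fun w n => X₁ n w)) :=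
    Measure.isProbabilityMeasure_map m₁.aemeasurable
  have : IsProbabilityMeasure (P₂.map (fun w n => X₂ n w)) :=
    Measure.isProbabilityMeasure_map m₂.aemeasurable
  have key : ∀ N : ℕ, (P₁.map (fun w n => X₁ n w)).map
        (Finset.restrict (π := fun _ : ℕ => ℤ) (Finset.range (N + 1)))
      = (P₂.map (fun w n => X₂ n w)).map
        (Finset.restrict (π := fun _ : ℕ => ℤ) (Finset.range (N + 1))) := by
    intro N
    apply Measure.ext_of_singleton
    intro a
    have mr : Measurable (Finset.restrict (π := fun _ : ℕ => ℤ) (Finset.range (N + 1))) :=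
      Finset.measurable_restrict _
    rw [Measure.map_apply mr (measurableSet_singleton _),
      Measure.map_apply mr (measurableSet_singleton _),
      Measure.map_apply m₁ (mr (measurableSet_singleton _)),
      Measure.map_apply m₂ (mr (measurableSet_singleton _))]
    set x : ℕ → ℤ := fun k => if hk : k ∈ Finset.range (N + 1) then a ⟨k, hk⟩ else 0 with hx
    have e : ∀ (y : ℕ → ℤ), y ∈ (Finset.restrict (π := fun _ : ℕ => ℤ) (Finset.range (N + 1))) ⁻¹'
        {a} ↔ ∀ k ≤ N, y k = x k := by
      intro y
      simp only [Set.mem_preimage, Set.mem_singleton_iff]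
      constructor
      · intro hy k hk
        have hk' : k ∈ Finset.range (N + 1) := Finset.mem_range.2 (by omega)
        rw [hx]
        simp only [hk', dite_true]
        rw [← hy]
        rfl
      · intro hy
        funext k
        have hk' := k.2
        have := hy k.1 (by have := Finset.mem_range.1 hk'; omega)
        rw [hx] at this
        simp only [hk', dite_true] at this
        exact this
    have e₁ : (fun w n => X₁ n w) ⁻¹' ((Finset.restrict (π := fun _ : ℕ => ℤ)
        (Finset.range (N + 1))) ⁻¹' {a}) = {w | ∀ k ≤ N, X₁ k w = x k} := by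
      ext w
      exact e _
    have e₂ : (fun w n => X₂ n w) ⁻¹' ((Finset.restrict (π := fun _ : ℕ => ℤ)
        (Finset.range (N + 1))) ⁻¹' {a}) = {w | ∀ k ≤ N, X₂ k w = x k} := by
      ext w
      exact e _
    rw [e₁, e₂]
    exact h x N
  have hlim₁ : IsProjectiveLimit (P₁.map (fun w n => X₁ n w))
      (fun I => (P₁.map (fun w n => X₁ n w)).map I.restrict) := fun I => rfl
  have hlim₂ : IsProjectiveLimit (P₂.map (fun w n => X₂ n w))
      (fun I => (P₁.map (fun w n => X₁ n w)).map I.restrict) := by
    intro I
    have hI : I ⊆ Finset.range (I.sup id + 1) := by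
      intro i hi
      rw [Finset.mem_range]
      have : i ≤ I.sup id := Finset.le_sup (f := id) hi
      omega
    have hr : (Finset.restrict (π := fun _ : ℕ => ℤ) I)
        = (Finset.restrict₂ hI) ∘ (Finset.restrict (Finset.range (I.sup id + 1))) := rfl
    have e : ∀ M : Measure (ℕ → ℤ), M.map (Finset.restrict (π := fun _ : ℕ => ℤ) I)
        = (M.map (Finset.restrict (Finset.range (I.sup id + 1)))).map
          (Finset.restrict₂ (π := fun _ : ℕ => ℤ) hI) := by
      intro M
      rw [Measure.map_map (Finset.measurable_restrict₂ hI) (Finset.measurable_restrict _), hr]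
    simp only
    rw [e, e, key]
  exact hlim₁.unique hlim₂

/-- number of earlier visits -/
def cnt (x : ℕ → ℤ) (n : ℕ) (y : ℤ) : ℕ := ((Finset.range n).filter (fun k => x k = y)).card

lemma cnt_succ (x : ℕ → ℤ) (n : ℕ) (y : ℤ) :
    cnt x (n + 1) y = cnt x n y + (if x n = y then 1 else 0) := by
  unfold cnt
  rw [Finset.range_add_one, Finset.filter_insert]
  split_ifs with h
  · rw [Finset.card_insert_of_notMem (by simp)]
  · rfl

lemma visits_eq (x : ℕ → ℤ) (n : ℕ) : visits x n = cnt x n (x n) + 1 := by
  have : visits x n = cnt x (n + 1) (x n) := rfl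
  rw [this, cnt_succ, if_pos rfl]

lemma cnt_mono (x : ℕ → ℤ) (y : ℤ) : Monotone (fun n => cnt x n y) := by
  apply monotone_nat_of_le_succ
  intro n
  rw [cnt_succ]
  omega

lemma cc_eq_cnt {ω : ℤ → ℕ → Bool} {x : ℕ → ℤ} {n : ℕ} (h : ∀ k < n, W ω k = x k) (y : ℤ) :
    cc ω n y = cnt x n y := by
  induction n with
  | zero => simp [cc_zero, cnt]
  | succ n ih =>
    rw [cc_succ, cnt_succ, ih (fun k hk => h k (by omega)), h n (by omega)]
    by_cases h1 : y = x n
    · rw [if_pos h1, if_pos h1.symm]
    · rw [if_neg h1, if_neg (fun hh => h1 hh.symm)]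

/-- nearest neighbour paths from the origin -/
def IsPath (x : ℕ → ℤ) (n : ℕ) : Prop :=
  x 0 = 0 ∧ ∀ i < n, x (i + 1) = x i + 1 ∨ x (i + 1) = x i - 1

lemma path_iff {ω : ℤ → ℕ → Bool} {x : ℕ → ℤ} {n : ℕ} (hx : IsPath x n) :
    (∀ k ≤ n, W ω k = x k) ↔ ∀ i < n, ω (x i) (cnt x i (x i)) = decide (x (i + 1) = x i + 1) := by
  induction n with
  | zero =>
    simp only [Nat.le_zero, not_lt_zero, false_implies, implies_true, iff_true]
    intro k hk
    rw [hk, W_zero, hx.1]
  | succ n ih =>
    have hx' : IsPath x n := ⟨hx.1, fun i hi => hx.2 i (by omega)⟩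
    have ih := ih hx'
    have hstep := hx.2 n (by omega)
    have key : (∀ k ≤ n, W ω k = x k) →
        (W ω (n + 1) = x (n + 1) ↔ ω (x n) (cnt x n (x n)) = decide (x (n + 1) = x n + 1)) := by
      intro h
      rw [W_succ, h n le_rfl, cc_eq_cnt (fun k hk => h k (by omega))]
      cases hb : ω (x n) (cnt x n (x n))
      · simp only [Bool.false_eq_true, if_false]
        rw [eq_comm (a := false), decide_eq_false_iff_not]
        rcases hstep with h1 | h1 <;> rw [h1] <;> constructor <;> intro h2 <;> omega
      · simp only [if_true]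
        rw [eq_comm (a := true), decide_eq_true_iff]
        exact eq_comm
    constructor
    · intro h i hi
      have h1 : ∀ k ≤ n, W ω k = x k := fun k hk => h k (by omega)
      rcases Nat.lt_succ_iff_lt_or_eq.1 hi with h2 | h2
      · exact ih.1 h1 i h2
      · subst h2
        exact (key h1).1 (h (i + 1) le_rfl)
    · intro h k hk
      have h1 : ∀ k ≤ n, W ω k = x k := ih.2 (fun i hi => h i (by omega))
      rcases Nat.le_succ_iff.1 hk with h2 | h2
      · exact h1 k h2
      · rw [h2]
        exact (key h1).2 (h n (by omega))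

lemma cnt_inj {x : ℕ → ℤ} {i j : ℕ} (h : (x i, cnt x i (x i)) = (x j, cnt x j (x j))) : i = j := by
  have aux : ∀ i j, i < j → (x i, cnt x i (x i)) ≠ (x j, cnt x j (x j)) := by
    intro i j hij h
    obtain ⟨h1, h2⟩ := Prod.mk.inj h
    rw [← h1] at h2
    have h3 := cnt_mono x (x i) (show i + 1 ≤ j by omega)
    simp only at h3
    rw [cnt_succ, if_pos rfl] at h3
    omega
  rcases lt_trichotomy i j with h1 | h1 | h1
  · exact absurd h (aux i j h1)
  · exact h1
  · exact absurd h.symm (aux j i h1)

/-- probability that prescribed distinct coins show prescribed values -/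
lemma prob_coins (q : ℕ → ℝ) (x : ℕ → ℤ) (b : ℕ → Bool) (n : ℕ) :
    envLaw q {ω | ∀ i < n, ω (x i) (cnt x i (x i)) = b i}
      = ∏ i ∈ Finset.range n, coin (q (cnt x i (x i))) {b i} := by
  set g : ℕ → ℤ × ℕ := fun i => (x i, cnt x i (x i)) with hg
  set t : ℤ × ℕ → Set Bool := fun p => {v | ∀ i < n, g i = p → v = b i} with ht
  set S : Finset (ℤ × ℕ) := (Finset.range n).image g with hS
  have hinj : Set.InjOn g (Finset.range n : Set ℕ) := fun i _ j _ h => cnt_inj h
  have h1 := Measure.infinitePi_map_curry_symm (fun (_ : ℤ) (j : ℕ) => coin (q j))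
  have h2 : envLaw q {ω | ∀ i < n, ω (x i) (cnt x i (x i)) = b i}
      = (Measure.infinitePi (fun p : ℤ × ℕ => coin (q p.2))) (Set.pi S t) := by
    rw [← h1]
    have hmS : MeasurableSet (Set.pi (S : Set (ℤ × ℕ)) t) :=
      MeasurableSet.pi (Finset.countable_toSet _) (fun _ _ => (Set.toFinite _).measurableSet)
    rw [Measure.map_apply (MeasurableEquiv.measurable _) hmS]
    unfold envLaw seqLaw
    congr 1
    ext ω
    simp only [Set.mem_ofPred_eq, Set.mem_preimage, Set.mem_pi]
    constructor
    · intro h p _ i hi hgi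
      rw [← hgi]
      exact h i hi
    · intro h i hi
      exact h (g i) (by rw [hS]; simp only [Finset.coe_image, Set.mem_image, Finset.mem_coe,
        Finset.mem_range]; exact ⟨i, hi, rfl⟩) i hi rfl
  rw [h2, Measure.infinitePi_pi _ (fun _ _ => (Set.toFinite _).measurableSet), hS,
    Finset.prod_image hinj]
  apply Finset.prod_congr rfl
  intro i hi
  have hi' := Finset.mem_range.1 hi
  have e : t (g i) = {b i} := by
    ext v
    simp only [ht, Set.mem_ofPred_eq, Set.mem_singleton_iff]
    constructor
    · intro h; exact h i hi' rfl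
    · intro h j _ hj
      have : j = i := cnt_inj hj
      rw [this]; exact h
  rw [e]

lemma prob_path {q : ℕ → ℝ} {x : ℕ → ℤ} {n : ℕ} (hx : IsPath x n) :
    envLaw q {ω | ∀ k ≤ n, W ω k = x k}
      = ∏ i ∈ Finset.range n, coin (q (cnt x i (x i))) {decide (x (i + 1) = x i + 1)} := by
  rw [← prob_coins q x (fun i => decide (x (i + 1) = x i + 1)) n]
  congr 1
  ext ω
  exact path_iff hx

lemma prob_not_path {q : ℕ → ℝ} {x : ℕ → ℤ} {n : ℕ} (hx : ¬ IsPath x n) :
    envLaw q {ω | ∀ k ≤ n, W ω k = x k} = 0 := by
  have : {ω | ∀ k ≤ n, W ω k = x k} = ∅ := by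
    ext ω
    simp only [Set.mem_ofPred_eq, Set.mem_empty_iff_false, iff_false]
    intro h
    apply hx
    refine ⟨?_, fun i hi => ?_⟩
    · rw [← h 0 (Nat.zero_le _), W_zero]
    · rw [← h (i + 1) (by omega), ← h i (by omega)]
      exact W_step i
  rw [this, measure_empty]

lemma measurable_st (n : ℕ) : Measurable (fun ω : ℤ → ℕ → Bool => W ω n) ∧
    ∀ y, Measurable (fun ω : ℤ → ℕ → Bool => cc ω n y) := by
  induction n with
  | zero => exact ⟨measurable_const, fun y => measurable_const⟩
  | succ n ih =>
    obtain ⟨h1, h2⟩ := ih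
    refine ⟨?_, fun y => ?_⟩
    · have h3 : Measurable (fun p : ℤ × (ℤ → ℕ → Bool) => cc p.2 n p.1) :=
        measurable_from_prod_countable_right (fun y => h2 y)
      have h4 : Measurable (fun ω : ℤ → ℕ → Bool => cc ω n (W ω n)) :=
        h3.comp (h1.prodMk measurable_id)
      have h5 : Measurable (fun p : (ℤ × ℕ) × (ℤ → ℕ → Bool) => p.2 p.1.1 p.1.2) :=
        measurable_from_prod_countable_right
          (fun p => (measurable_pi_apply p.2).comp (measurable_pi_apply p.1))
      have h6 : Measurable (fun ω : ℤ → ℕ → Bool => ω (W ω n) (cc ω n (W ω n))) :=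
        h5.comp ((h1.prodMk h4).prodMk measurable_id)
      have e : (fun ω : ℤ → ℕ → Bool => W ω (n + 1))
          = fun ω => if ω (W ω n) (cc ω n (W ω n)) = true then W ω n + 1 else W ω n - 1 := by
        funext ω; exact W_succ n
      rw [e]
      apply Measurable.ite
      · exact h6 (measurableSet_singleton true)
      · exact h1.add_const 1
      · exact h1.sub_const 1
    · have e : (fun ω : ℤ → ℕ → Bool => cc ω (n + 1) y)
          = fun ω => cc ω n y + (if y = W ω n then 1 else 0) := by
        funext ω; exact cc_succ n y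
      rw [e]
      apply (h2 y).add
      apply Measurable.ite
      · have : {ω : ℤ → ℕ → Bool | y = W ω n} = (fun ω => W ω n) ⁻¹' {y} := by
          ext ω; simp [eq_comm]
        rw [this]
        exact h1 (measurableSet_singleton y)
      · exact measurable_const
      · exact measurable_const

lemma measurable_W (n : ℕ) : Measurable (fun ω : ℤ → ℕ → Bool => W ω n) := (measurable_st n).1

/-- environment as a sequence indexed by `j ≥ 1` -/
noncomputable def pp (j : ℕ) : ℝ := qq (j - 1)

/-- path probabilities of an excited random walk -/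
lemma IsERW.prob {Ω : Type} [MeasurableSpace Ω] {P : Measure Ω} [IsProbabilityMeasure P]
    {X : ℕ → Ω → ℤ} (h : IsERW pp P X) (x : ℕ → ℤ) (n : ℕ) :
    P {w | ∀ k ≤ n, X k w = x k} = envLaw qq {ω | ∀ k ≤ n, W ω k = x k} := by
  by_cases hx : IsPath x n
  · rw [prob_path hx]
    induction n with
    | zero =>
      simp only [Finset.range_zero, Finset.prod_empty]
      have : ∀ᵐ w ∂P, w ∈ {w | ∀ k ≤ 0, X k w = x k} := by
        filter_upwards [h.start] with w hw
        intro k hk
        rw [Nat.le_zero.1 hk, hw, hx.1]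
      rw [measure_eq_measure_of_null_sdiff (Set.subset_univ _) ?_, measure_univ]
      rw [← Set.compl_eq_univ_sdiff]
      exact ae_iff.1 this
    | succ n ih =>
      have hx' : IsPath x n := ⟨hx.1, fun i hi => hx.2 i (by omega)⟩
      rw [Finset.prod_range_succ, ← ih hx']
      have hset : {w | ∀ k ≤ n + 1, X k w = x k}
          = {w | (∀ k ≤ n, X k w = x k) ∧ X (n + 1) w = x (n + 1)} := by
        ext w
        simp only [Set.mem_ofPred_eq]
        constructor
        · intro hh
          exact ⟨fun k hk => hh k (by omega), hh _ le_rfl⟩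
        · rintro ⟨h1, h2⟩ k hk
          rcases Nat.le_succ_iff.1 hk with h3 | h3
          · exact h1 k h3
          · rw [h3]; exact h2
      rw [hset]
      have hv : pp (visits x n) = qq (cnt x n (x n)) := by
        rw [visits_eq]; rfl
      rcases hx.2 n (by omega) with h1 | h1
      · rw [h1, h.right x n, hv]
        simp only [decide_true]
        rw [coin_real_true (qq01 _).1 (qq01 _).2, mul_comm]
      · rw [h1, h.left x n, hv]
        have : decide (x n - 1 = x n + 1) = false := by
          rw [decide_eq_false_iff_not]; omega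
        rw [this, coin_real_false (qq01 _).1 (qq01 _).2, mul_comm]
  · rw [prob_not_path hx]
    induction n with
    | zero =>
      have h0 : x 0 ≠ 0 := by
        intro h0
        exact hx ⟨h0, fun i hi => by omega⟩
      have : {w | ∀ k ≤ 0, X k w = x k} ⊆ {w | ¬ X 0 w = 0} := by
        intro w hw h1
        exact h0 (by rw [← hw 0 le_rfl, h1])
      exact measure_mono_null this (ae_iff.1 h.start)
    | succ n ih =>
      by_cases hx' : IsPath x n
      · have h1 : x (n + 1) ≠ x n + 1 ∧ x (n + 1) ≠ x n - 1 := by
          by_contra hcon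
          apply hx
          refine ⟨hx'.1, fun i hi => ?_⟩
          rcases Nat.lt_succ_iff_lt_or_eq.1 hi with h2 | h2
          · exact hx'.2 i h2
          · rw [h2]; tauto
        -- the three events are disjoint
        set E := {w | ∀ k ≤ n, X k w = x k} with hE
        set E1 := {w | (∀ k ≤ n, X k w = x k) ∧ X (n + 1) w = x n + 1} with hE1
        set E2 := {w | (∀ k ≤ n, X k w = x k) ∧ X (n + 1) w = x n - 1} with hE2
        set E3 := {w | ∀ k ≤ n + 1, X k w = x k} with hE3
        have hmE : MeasurableSet E := by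
          have : E = ⋂ k ∈ Set.Iic n, (X k) ⁻¹' {x k} := by
            ext w; simp [hE]
          rw [this]
          exact MeasurableSet.biInter (Set.to_countable _)
            (fun k _ => h.meas k (measurableSet_singleton _))
        have hmE1 : MeasurableSet E1 := by
          have : E1 = E ∩ (X (n + 1)) ⁻¹' {x n + 1} := by ext w; simp [hE, hE1]
          rw [this]
          exact hmE.inter (h.meas _ (measurableSet_singleton _))
        have hmE2 : MeasurableSet E2 := by
          have : E2 = E ∩ (X (n + 1)) ⁻¹' {x n - 1} := by ext w; simp [hE, hE2]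
          rw [this]
          exact hmE.inter (h.meas _ (measurableSet_singleton _))
        have hsum : P E1 + P E2 = P E := by
          have a1 : 0 ≤ pp (visits x n) := (qq01 _).1
          have a2 : 0 ≤ 1 - pp (visits x n) := by
            have := (qq01 (visits x n - 1)).2
            unfold pp
            linarith
          rw [h.right x n, h.left x n, ← add_mul, ← ENNReal.ofReal_add a1 a2]
          simp [hE]
        have hd12 : Disjoint E1 E2 := by
          rw [Set.disjoint_left]
          intro w h3 h4
          have := h3.2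
          have h5 := h4.2
          omega
        have hd3 : Disjoint (E1 ∪ E2) E3 := by
          rw [Set.disjoint_left]
          intro w h3 h4
          have h5 := h4 (n + 1) le_rfl
          rcases h3 with h3 | h3
          · exact h1.1 (by rw [← h5]; exact h3.2)
          · exact h1.2 (by rw [← h5]; exact h3.2)
        have hsub : (E1 ∪ E2) ∪ E3 ⊆ E := by
          intro w hw
          rcases hw with (hw | hw) | hw
          · exact hw.1
          · exact hw.1
          · exact fun k hk => hw k (by omega)
        have hle : P (E1 ∪ E2) + P E3 ≤ P E := by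
          rw [← measure_union' hd3 (hmE1.union hmE2)]
          exact measure_mono hsub
        rw [measure_union hd12 hmE2, hsum] at hle
        have hfin : P E ≠ ⊤ := measure_ne_top _ _
        have : P E + P E3 ≤ P E + 0 := by rwa [add_zero]
        exact le_antisymm (ENNReal.le_of_add_le_add_left hfin this) zero_le
      · refine measure_mono_null ?_ (ih hx')
        intro w hw k hk
        exact hw k (by omega)

end Pool.Agent.D0H97.ERW
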