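import Pool.Agent.D0H97.ERW.Mom2

set_option autoImplicit false

open MeasureTheory ProbabilityTheory Filter Topology
open scoped ENNReal BigOperators

namespace Pool.Agent.D0H97.ERW

lemma measurable_fails (n : ℕ) : Measurable (fun τ : ℕ → Bool => fails τ n) :=
  (dep_fails n).measurable

lemma measurable_Tx (x : ℕ) : Measurable (Tx x) := by
  apply measurable_to_countable'
  intro m
  have hm : ∀ n k, MeasurableSet {τ : ℕ → Bool | fails τ n = k} := fun n k =>
    measurable_fails n (measurableSet_singleton k)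
  have hA : MeasurableSet {τ : ℕ → Bool | ∀ n, fails τ n ≠ x} := by
    rw [Set.ofPred_forall]
    exact MeasurableSet.iInter (fun n => (hm n x).compl)
  have hB : MeasurableSet {τ : ℕ → Bool | fails τ m = x ∧ ∀ n < m, fails τ n ≠ x} := by
    have : {τ : ℕ → Bool | fails τ m = x ∧ ∀ n < m, fails τ n ≠ x}
        = {τ : ℕ → Bool | fails τ m = x} ∩ ⋂ n ∈ Finset.range m, {τ | fails τ n = x}ᶜ := by
      ext τ; simp
    rw [this]
    exact (hm m x).inter (Finset.measurableSet_biInter _ (fun n _ => (hm n x).compl))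
  have : Tx x ⁻¹' {m} = {τ : ℕ → Bool | fails τ m = x ∧ ∀ n < m, fails τ n ≠ x} ∪
      ({τ : ℕ → Bool | ∀ n, fails τ n ≠ x} ∩ {_τ | m = 0}) := by
    ext τ
    simp only [Set.mem_preimage, Set.mem_singleton_iff, Set.mem_union, Set.mem_ofPred_eq,
      Set.mem_inter_iff]
    constructor
    · intro h
      by_cases he : ∃ n, fails τ n = x
      · left
        constructor
        · have := Nat.sInf_mem (s := {n | fails τ n = x}) he
          rw [← h]; exact this
        · intro n hn he'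
          have : Tx x τ ≤ n := Nat.sInf_le he'
          omega
      · right
        push Not at he
        refine ⟨he, ?_⟩
        rw [← h]
        unfold Tx
        have : {n | fails τ n = x} = ∅ := by
          ext n; simp [he n]
        rw [this]; simp
    · rintro (⟨h1, h2⟩ | ⟨h1, h2⟩)
      · have a1 : Tx x τ ≤ m := Nat.sInf_le h1
        have a2 : fails τ (Tx x τ) = x := Nat.sInf_mem (s := {n | fails τ n = x}) ⟨m, h1⟩
        rcases a1.lt_or_eq with h | h
        · exact absurd a2 (h2 _ h)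
        · exact h
      · unfold Tx
        have : {n | fails τ n = x} = ∅ := by
          ext n; simp [h1 n]
        rw [this, h2]; simp
  rw [this]
  exact hB.union (hA.inter (MeasurableSet.const _))

lemma measurable_U (x : ℕ) : Measurable (U x) := by
  have : U x = (fun k : ℕ => k - x) ∘ Tx x := rfl
  rw [this]
  exact (measurable_of_countable _).comp (measurable_Tx x)

lemma inff_of {τ : ℕ → Bool} (h : ∀ N, ∃ i, N ≤ i ∧ τ i = false) : Inff τ := by
  intro k
  induction k with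
  | zero => exact ⟨0, fails_zero τ⟩
  | succ k ih =>
    obtain ⟨n, hn⟩ := ih
    -- first failure after n
    have hex : ∃ i, n ≤ i ∧ τ i = false := h n
    classical
    let i := Nat.find hex
    obtain ⟨hi1, hi2⟩ : n ≤ i ∧ τ i = false := Nat.find_spec hex
    have hmin : ∀ j, n ≤ j → j < i → τ j ≠ false := fun j hj1 hj2 h3 =>
      Nat.find_min hex hj2 ⟨hj1, h3⟩
    have hconst : ∀ j, n ≤ j → j ≤ i → fails τ j = k := by
      intro j hj1 hj2
      induction j, hj1 using Nat.le_induction with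
      | base => exact hn
      | succ j hj ih =>
        rw [fails_succ, ih (by omega), if_neg (hmin j hj (by omega)), add_zero]
    refine ⟨i + 1, ?_⟩
    rw [fails_succ, hconst i hi1 le_rfl, if_pos hi2]

lemma ae_frequently_false {q : ℕ → ℝ} {ε : ℝ} (hε : 0 < ε) (h0 : ∀ i, 0 ≤ q i)
    (h1 : ∀ i, q i ≤ 1 - ε) :
    ∀ᵐ τ ∂(seqLaw q), ∀ N, ∃ i, N ≤ i ∧ τ i = false := by
  rw [ae_all_iff]
  intro N
  rw [ae_iff]
  have hle : ∀ m : ℕ, seqLaw q {τ | ¬ ∃ i, N ≤ i ∧ τ i = false} ≤ (ENNReal.ofReal (1 - ε)) ^ m := by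
    intro m
    have hsub : {τ : ℕ → Bool | ¬ ∃ i, N ≤ i ∧ τ i = false}
        ⊆ Set.pi (↑(Finset.Ico N (N + m))) (fun _ => ({true} : Set Bool)) := by
      intro τ hτ
      simp only [Set.mem_ofPred_eq, not_exists, not_and, Bool.not_eq_false] at hτ
      intro i hi
      have : N ≤ i := (Finset.mem_Ico.1 (by simpa using hi)).1
      simpa using hτ i this
    refine (measure_mono hsub).trans ?_
    unfold seqLaw
    rw [Measure.infinitePi_pi _ (fun i _ => measurableSet_singleton _)]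
    calc ∏ i ∈ Finset.Ico N (N + m), coin (q i) {true}
        ≤ ∏ _i ∈ Finset.Ico N (N + m), ENNReal.ofReal (1 - ε) := by
          apply Finset.prod_le_prod' 
          intro i _
          rw [coin_real_true (h0 i) ((h1 i).trans (by linarith))]
          exact ENNReal.ofReal_le_ofReal (h1 i)
      _ = _ := by simp
  have hlt : ENNReal.ofReal (1 - ε) < 1 := by
    rw [← ENNReal.ofReal_one]
    exact (ENNReal.ofReal_lt_ofReal_iff (by norm_num)).2 (by linarith)
  have hlim := ENNReal.tendsto_pow_atTop_nhds_zero_of_lt_one hlt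
  exact le_antisymm (ge_of_tendsto' hlim hle) bot_le

lemma Good.ae_inff {q : ℕ → ℝ} {ε C0 : ℝ} (hq : Good q ε C0) : ∀ᵐ τ ∂(seqLaw q), Inff τ := by
  filter_upwards [ae_frequently_false hq.eps (fun i => (hq.q01 i).1) hq.hi] with τ hτ
  exact inff_of hτ

lemma Y_lim {τ : ℕ → Bool} (h : Inff τ) {x n : ℕ} (hn : Tx x τ ≤ n) :
    Y x n τ = (U x τ : ℝ) - x := by
  unfold Y
  rw [su_eq h hn, fa_eq_x h hn]

lemma Y_abs_le {τ : ℕ → Bool} (h : Inff τ) (x n : ℕ) : |Y x n τ| ≤ (U x τ : ℝ) + x := by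
  unfold Y
  have h1 : (su x τ n : ℝ) ≤ U x τ := by exact_mod_cast su_le_U h x n
  have h2 : (fa x τ n : ℝ) ≤ x := by exact_mod_cast fa_le x τ n
  have h3 : (0 : ℝ) ≤ su x τ n := by positivity
  have h4 : (0 : ℝ) ≤ fa x τ n := by positivity
  rw [abs_le]
  constructor <;> linarith [show (0:ℝ) ≤ U x τ by positivity, show (0:ℝ) ≤ (x:ℝ) by positivity]

/-- `U - x` has a third moment -/
lemma int_cube {q : ℕ → ℝ} {ε C0 : ℝ} (hq : Good q ε C0) {x : ℕ} (hx : 2 ≤ x) :
    Integrable (fun τ => |(U x τ : ℝ) - x| ^ 3) (seqLaw q) ∧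
    (∫ τ, |(U x τ : ℝ) - x| ^ 3 ∂(seqLaw q)) * (1 / Real.sqrt x) ^ 3 ≤ BB C0 := by
  obtain ⟨a1, a2, a3⟩ := hh hx
  set h := 1 / Real.sqrt x with hdef
  have hmeas : Measurable (fun τ => |(U x τ : ℝ) - x| ^ 3) := by
    have := measurable_U x
    fun_prop
  have hd : ∀ n, Dep n (fun τ => |Y x n τ| ^ 3) := fun n τ τ' hh => by
    simp only [dep_Y x n τ τ' hh]
  have hF : ∫⁻ τ, ENNReal.ofReal (|(U x τ : ℝ) - x| ^ 3) ∂(seqLaw q)
      ≤ ENNReal.ofReal (BB C0 / h ^ 3) := by
    have hh3 : 0 < h ^ 3 := by positivity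
    have hb : ∀ n, ∫⁻ τ, ENNReal.ofReal (|Y x n τ| ^ 3) ∂(seqLaw q)
        ≤ ENNReal.ofReal (BB C0 / h ^ 3) := by
      intro n
      rw [← ofReal_integral_eq_lintegral_ofReal ((hd n).integrable q)
        (ae_of_all _ (fun τ => by positivity))]
      apply ENNReal.ofReal_le_ofReal
      rw [le_div_iff₀ hh3]
      exact Y_cube hq hx n
    have hlim : ∀ᵐ τ ∂(seqLaw q), ENNReal.ofReal (|(U x τ : ℝ) - x| ^ 3)
        = liminf (fun n => ENNReal.ofReal (|Y x n τ| ^ 3)) atTop := by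
      filter_upwards [hq.ae_inff] with τ hτ
      symm
      apply Tendsto.liminf_eq
      apply tendsto_const_nhds.congr'
      filter_upwards [eventually_ge_atTop (Tx x τ)] with n hn
      rw [Y_lim hτ hn]
    rw [lintegral_congr_ae hlim]
    refine (lintegral_liminf_le (fun n => ?_)).trans ?_
    · exact ((hd n).measurable).ennreal_ofReal
    · refine liminf_le_of_le (by isBoundedDefault) ?_
      intro b hb'
      obtain ⟨n, hn⟩ := hb'.exists
      exact hn.trans (hb n)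
  have hint : Integrable (fun τ => |(U x τ : ℝ) - x| ^ 3) (seqLaw q) := by
    refine ⟨hmeas.aestronglyMeasurable, ?_⟩
    rw [hasFiniteIntegral_iff_ofReal (ae_of_all _ (fun τ => by positivity))]
    exact hF.trans_lt ENNReal.ofReal_lt_top
  refine ⟨hint, ?_⟩
  rw [← le_div_iff₀ (by positivity)]
  rw [← ofReal_integral_eq_lintegral_ofReal hint (ae_of_all _ (fun τ => by positivity))] at hF
  exact (ENNReal.ofReal_le_ofReal_iff (by have := BB_pos C0; positivity)).1 hF

lemma int_U3 {q : ℕ → ℝ} {ε C0 : ℝ} (hq : Good q ε C0) {x : ℕ} (hx : 2 ≤ x) :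
    Integrable (fun τ => ((U x τ : ℝ) + x) ^ 3) (seqLaw q) := by
  have h1 := (int_cube hq hx).1
  have hmeas : Measurable (fun τ => ((U x τ : ℝ) + x) ^ 3) := by
    have := measurable_U x
    fun_prop
  apply Integrable.mono' ((h1.const_mul 4).add (integrable_const (4 * (2 * (x:ℝ)) ^ 3)))
    hmeas.aestronglyMeasurable
  apply ae_of_all
  intro τ
  have hU : (0:ℝ) ≤ U x τ := by positivity
  have hxx : (0:ℝ) ≤ (x:ℝ) := by positivity
  rw [Real.norm_of_nonneg (by positivity)]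
  simp only [Pi.add_apply]
  have key : ∀ a b : ℝ, 0 ≤ a → 0 ≤ b → (a + b) ^ 3 ≤ 4 * a ^ 3 + 4 * b ^ 3 := by
    intro a b ha hb
    nlinarith [mul_nonneg (add_nonneg ha hb) (sq_nonneg (a - b))]
  calc ((U x τ : ℝ) + x) ^ 3 ≤ (|(U x τ : ℝ) - x| + 2 * x) ^ 3 := by
        apply pow_le_pow_left₀ (by positivity)
        linarith [le_abs_self ((U x τ : ℝ) - x)]
    _ ≤ _ := key _ _ (abs_nonneg _) (by positivity)

lemma int_U2 {q : ℕ → ℝ} {ε C0 : ℝ} (hq : Good q ε C0) {x : ℕ} (hx : 2 ≤ x) :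
    Integrable (fun τ => ((U x τ : ℝ) + x) ^ 2) (seqLaw q) := by
  have h1 := int_U3 hq hx
  have hmeas : Measurable (fun τ => ((U x τ : ℝ) + x) ^ 2) := by
    have := measurable_U x
    fun_prop
  apply Integrable.mono' ((integrable_const (1:ℝ)).add h1) hmeas.aestronglyMeasurable
  apply ae_of_all
  intro τ
  have hU : (0:ℝ) ≤ (U x τ : ℝ) + x := by positivity
  rw [Real.norm_of_nonneg (by positivity)]
  change ((U x τ : ℝ) + x) ^ 2 ≤ 1 + ((U x τ : ℝ) + x) ^ 3
  set t := (U x τ : ℝ) + x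
  rcases le_total t 1 with h | h
  · have : 0 ≤ t ^ 3 := by positivity
    nlinarith
  · nlinarith [sq_nonneg t]

lemma int_U1 {q : ℕ → ℝ} {ε C0 : ℝ} (hq : Good q ε C0) {x : ℕ} (hx : 2 ≤ x) :
    Integrable (fun τ => (U x τ : ℝ) + x) (seqLaw q) := by
  have h1 := int_U2 hq hx
  have hmeas : Measurable (fun τ => ((U x τ : ℝ) + x)) := by
    have := measurable_U x
    fun_prop
  apply Integrable.mono' ((integrable_const (1:ℝ)).add h1) hmeas.aestronglyMeasurable
  apply ae_of_all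
  intro τ
  have hU : (0:ℝ) ≤ (U x τ : ℝ) + x := by positivity
  rw [Real.norm_of_nonneg hU]
  change ((U x τ : ℝ) + x) ≤ 1 + ((U x τ : ℝ) + x) ^ 2
  set t := (U x τ : ℝ) + x
  nlinarith [sq_nonneg (t - 1)]

lemma lim_int {q : ℕ → ℝ} {ε C0 : ℝ} (hq : Good q ε C0) {x : ℕ} (F : ℕ → (ℕ → Bool) → ℝ)
    (G : (ℕ → Bool) → ℝ) (B : (ℕ → Bool) → ℝ) (hB : Integrable B (seqLaw q))
    (hd : ∀ n, Dep n (F n))
    (hF : ∀ τ, Inff τ → ∀ n, |F n τ| ≤ B τ)
    (hlim : ∀ τ, Inff τ → ∀ n, Tx x τ ≤ n → F n τ = G τ) :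
    Tendsto (fun n => ∫ τ, F n τ ∂(seqLaw q)) atTop (𝓝 (∫ τ, G τ ∂(seqLaw q))) := by
  apply tendsto_integral_of_dominated_convergence B (fun n => (hd n).measurable.aestronglyMeasurable) hB
  · intro n
    filter_upwards [hq.ae_inff] with τ hτ
    rw [Real.norm_eq_abs]
    exact hF τ hτ n
  · filter_upwards [hq.ae_inff] with τ hτ
    apply tendsto_const_nhds.congr'
    filter_upwards [eventually_ge_atTop (Tx x τ)] with n hn
    exact (hlim τ hτ n hn).symm

/-- first moment -/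
lemma E_first {q : ℕ → ℝ} {ε C0 : ℝ} (hq : Good q ε C0) {x : ℕ} (hx : 2 ≤ x) :
    ∫ τ, ((U x τ : ℝ) - x) ∂(seqLaw q) = ∫ τ, D q (Tx x τ) ∂(seqLaw q) := by
  have l1 : Tendsto (fun n => ∫ τ, Y x n τ ∂(seqLaw q)) atTop
      (𝓝 (∫ τ, ((U x τ : ℝ) - x) ∂(seqLaw q))) :=
    lim_int hq (x := x) (fun n => Y x n) _ _ (int_U1 hq hx) (fun n => dep_Y x n)
      (fun τ hτ n => Y_abs_le hτ x n) (fun τ hτ n hn => Y_lim hτ hn)
  have hd : ∀ n, Dep n (fun τ => ∑ i ∈ Finset.range n, (2 * q i - 1) * A x i τ) := by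
    intro n τ τ' h
    apply Finset.sum_congr rfl
    intro i hi
    have : i < n := Finset.mem_range.1 hi
    rw [dep_A x i τ τ' (fun j hj => h j (by omega))]
  have e1 : ∀ n, ∫ τ, Y x n τ ∂(seqLaw q)
      = ∫ τ, ∑ i ∈ Finset.range n, (2 * q i - 1) * A x i τ ∂(seqLaw q) := by
    intro n
    rw [E_Y hq, integral_finsetSum _ (fun i _ => ((dep_A x i).integrable q).const_mul _)]
    apply Finset.sum_congr rfl
    intro i _
    rw [integral_const_mul]
  have l2 : Tendsto (fun n => ∫ τ, ∑ i ∈ Finset.range n, (2 * q i - 1) * A x i τ ∂(seqLaw q)) atTop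
      (𝓝 (∫ τ, D q (Tx x τ) ∂(seqLaw q))) := by
    apply lim_int hq (x := x) _ _ (fun _ => C0) (integrable_const _) hd
    · intro τ hτ n
      rw [sum_A hτ]
      exact hq.abs_D _
    · intro τ hτ n hn
      rw [sum_A hτ, min_eq_right hn]
      rfl
  simp_rw [e1] at l1
  exact tendsto_nhds_unique l1 l2

/-- second moment -/
lemma E_second {q : ℕ → ℝ} {ε C0 : ℝ} (hq : Good q ε C0) {x : ℕ} (hx : 2 ≤ x) :
    |∫ τ, ((U x τ : ℝ) - x) ^ 2 ∂(seqLaw q) - ∫ τ, (Tx x τ : ℝ) ∂(seqLaw q)|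
      ≤ 2 * C0 * (1 + BB C0) * Real.sqrt x := by
  have l1 : Tendsto (fun n => ∫ τ, (Y x n τ) ^ 2 ∂(seqLaw q)) atTop
      (𝓝 (∫ τ, ((U x τ : ℝ) - x) ^ 2 ∂(seqLaw q))) := by
    apply lim_int hq (x := x) (fun n τ => (Y x n τ) ^ 2) _ _ (int_U2 hq hx)
    · intro n τ τ' h
      simp only [dep_Y x n τ τ' h]
    · intro τ hτ n
      rw [abs_pow]
      exact pow_le_pow_left₀ (abs_nonneg _) (Y_abs_le hτ x n) 2
    · intro τ hτ n hn
      simp only [Y_lim hτ hn]
  have l2 : Tendsto (fun n => ∫ τ, (al x τ n : ℝ) ∂(seqLaw q)) atTop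
      (𝓝 (∫ τ, (Tx x τ : ℝ) ∂(seqLaw q))) := by
    apply lim_int hq (x := x) (fun n τ => (al x τ n : ℝ)) _ _ (int_U1 hq hx)
    · intro n τ τ' h
      have : al x τ n = al x τ' n := dep_al x n τ τ' h
      simp only [this]
    · intro τ hτ n
      rw [abs_of_nonneg (by positivity), al_eq hτ, ← Nat.cast_add, ← Tx_eq hτ]
      exact_mod_cast min_le_right _ _
    · intro τ hτ n hn
      simp only [al_eq hτ, min_eq_right hn]
  have l3 := (l1.sub l2).abs
  apply le_of_tendsto' l3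
  intro n
  rw [E_Y2 hq]
  rw [add_sub_cancel_left, abs_mul, abs_two]
  have hs : |∑ i ∈ Finset.range n, (2 * q i - 1) * ∫ τ, Y x i τ * A x i τ ∂(seqLaw q)|
      ≤ C0 * ((1 + BB C0) * Real.sqrt x) := by
    calc _ ≤ ∑ i ∈ Finset.range n, |(2 * q i - 1) * ∫ τ, Y x i τ * A x i τ ∂(seqLaw q)| :=
          Finset.abs_sum_le_sum_abs _ _
      _ ≤ ∑ i ∈ Finset.range n, |2 * q i - 1| * ((1 + BB C0) * Real.sqrt x) := by
          apply Finset.sum_le_sum
          intro i _
          rw [abs_mul]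
          apply mul_le_mul_of_nonneg_left _ (abs_nonneg _)
          refine le_trans ?_ (Y_abs hq hx i)
          refine (abs_integral_le_integral_abs).trans ?_
          have d1 : Dep i (fun τ => |Y x i τ * A x i τ|) := fun τ τ' h => by
            simp only [dep_A x i τ τ' h, dep_Y x i τ τ' h]
          have d2 : Dep i (fun τ => |Y x i τ|) := fun τ τ' h => by
            simp only [dep_Y x i τ τ' h]
          apply integral_mono (d1.integrable q) (d2.integrable q)
          intro τ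
          simp only
          rw [abs_mul, abs_of_nonneg (A_nonneg x i τ)]
          exact mul_le_of_le_one_right (abs_nonneg _) (A_le_one _ _ _)
      _ = (∑ i ∈ Finset.range n, |2 * q i - 1|) * ((1 + BB C0) * Real.sqrt x) := by
          rw [Finset.sum_mul]
      _ ≤ _ := by
          apply mul_le_mul_of_nonneg_right (hq.sum n)
          have := BB_pos C0
          positivity
  linarith

lemma E_T {q : ℕ → ℝ} {ε C0 : ℝ} (hq : Good q ε C0) {x : ℕ} (hx : 2 ≤ x) :
    ∫ τ, (Tx x τ : ℝ) ∂(seqLaw q) = 2 * x + ∫ τ, ((U x τ : ℝ) - x) ∂(seqLaw q) := by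
  have h1 : ∫ τ, (Tx x τ : ℝ) ∂(seqLaw q) = ∫ τ, ((U x τ : ℝ) + x) ∂(seqLaw q) := by
    apply integral_congr_ae
    filter_upwards [hq.ae_inff] with τ hτ
    rw [Tx_eq hτ]; push_cast; ring
  have h2 : ∀ τ, (U x τ : ℝ) - x = ((U x τ : ℝ) + x) - 2 * x := fun τ => by ring
  rw [h1]
  simp_rw [h2]
  rw [integral_sub (int_U1 hq hx) (integrable_const _)]
  simp

end Pool.Agent.D0H97.ERW
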