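import Pool.Agent.D0H97.ERW.Env

set_option autoImplicit false

open MeasureTheory ProbabilityTheory Filter Topology
open scoped ENNReal BigOperators

namespace Pool.Agent.D0H97.ERW

/-- Lyapunov function -/
noncomputable def H (y : ℕ) : ℝ := 1 / Real.log ((y : ℝ) + 2)

lemma log_two_pos' (y : ℕ) : 0 < Real.log ((y : ℝ) + 2) := by
  apply Real.log_pos
  have : (0:ℝ) ≤ y := by positivity
  linarith

lemma H_pos (y : ℕ) : 0 < H y := by
  unfold H
  have := log_two_pos' y
  positivity

lemma H_anti : Antitone H := by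
  intro a b hab
  unfold H
  have h1 := log_two_pos' a
  have h2 : (a : ℝ) ≤ b := by exact_mod_cast hab
  have h3 : Real.log ((a : ℝ) + 2) ≤ Real.log ((b : ℝ) + 2) := by
    apply Real.log_le_log (by positivity)
    linarith
  gcongr

lemma H_le (y : ℕ) : H y ≤ 3 / 2 := by
  refine (H_anti (Nat.zero_le y)).trans ?_
  unfold H
  have := Real.log_two_gt_d9
  rw [div_le_iff₀ (by norm_num; linarith)]
  norm_num
  linarith

lemma log_lower {z : ℝ} (hz : -(1/2) ≤ z) : z - z ^ 2 / 2 - |z| ^ 3 ≤ Real.log (1 + z) := by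
  rcases le_total 0 z with h0 | h0
  · rw [abs_of_nonneg h0]
    have h1 : z - z ^ 2 / 2 ≤ Real.log (1 + z) := by
      -- derivative of log(1+z) - z + z^2/2 is z^2/(1+z) ≥ 0
      have hmono : MonotoneOn (fun z : ℝ => Real.log (1 + z) - (z - z ^ 2 / 2)) (Set.Ici 0) := by
        apply monotoneOn_of_deriv_nonneg (convex_Ici 0)
        · apply ContinuousOn.sub
          · apply ContinuousOn.log (by fun_prop)
            intro x hx
            have : (0:ℝ) ≤ x := hx
            linarith
          · fun_prop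
        · intro x hx
          simp only [interior_Ici, Set.mem_Ioi] at hx
          apply DifferentiableAt.differentiableWithinAt
          apply DifferentiableAt.sub
          · apply DifferentiableAt.log (by fun_prop); linarith
          · fun_prop
        · intro x hx
          simp only [interior_Ici, Set.mem_Ioi] at hx
          have hd : HasDerivAt (fun z : ℝ => Real.log (1 + z) - (z - z ^ 2 / 2))
              (1 / (1 + x) - (1 - (2 * x) / 2)) x := by
            apply HasDerivAt.sub
            · have h1 : HasDerivAt (fun z : ℝ => 1 + z) 1 x := by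
                simpa using (hasDerivAt_id x).const_add 1
              exact h1.log (by linarith)
            · apply HasDerivAt.sub (hasDerivAt_id x)
              apply HasDerivAt.div_const
              simpa using hasDerivAt_pow 2 x
          rw [hd.deriv]
          have : 1 / (1 + x) - (1 - 2 * x / 2) = x ^ 2 / (1 + x) := by
            field_simp
            ring
          rw [this]
          positivity
      have := hmono (Set.self_mem_Ici) h0 h0
      simp at this
      linarith
    have : 0 ≤ z ^ 3 := by positivity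
    linarith
  · rw [abs_of_nonpos h0]
    -- -log(1+z) = log(1/(1+z)); use series bound
    have hz1 : 0 < 1 + z := by linarith
    have hmono : AntitoneOn (fun z : ℝ => Real.log (1 + z) - (z - z ^ 2 / 2 - (-z) ^ 3))
        (Set.Icc (-(1/2)) 0) := by
      apply antitoneOn_of_deriv_nonpos (convex_Icc _ _)
      · apply ContinuousOn.sub
        · apply ContinuousOn.log (by fun_prop)
          intro x hx
          have : -(1/2) ≤ x := hx.1
          linarith
        · fun_prop
      · intro x hx
        rw [interior_Icc] at hx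
        apply DifferentiableAt.differentiableWithinAt
        apply DifferentiableAt.sub
        · apply DifferentiableAt.log (by fun_prop)
          have := hx.1
          linarith
        · fun_prop
      · intro x hx
        rw [interior_Icc] at hx
        obtain ⟨hx1, hx2⟩ := hx
        have hd : HasDerivAt (fun z : ℝ => Real.log (1 + z) - (z - z ^ 2 / 2 - (-z) ^ 3))
            (1 / (1 + x) - (1 - (2 * x) / 2 - (3 * (-x) ^ 2 * (-1)))) x := by
          apply HasDerivAt.sub
          · have h1 : HasDerivAt (fun z : ℝ => 1 + z) 1 x := by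
              simpa using (hasDerivAt_id x).const_add 1
            exact h1.log (by linarith)
          · apply HasDerivAt.sub
            · apply HasDerivAt.sub (hasDerivAt_id x)
              apply HasDerivAt.div_const
              simpa using hasDerivAt_pow 2 x
            · have h1 : HasDerivAt (fun z : ℝ => -z) (-1) x := (hasDerivAt_id' x).fun_neg
              simpa using h1.fun_pow 3
        rw [hd.deriv]
        have hp : 0 < 1 + x := by linarith
        have : 1 / (1 + x) - (1 - 2 * x / 2 - 3 * (-x) ^ 2 * -1) = x ^ 2 * (-2 - 3 * x) / (1 + x) := by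
          field_simp
          ring
        rw [this]
        apply div_nonpos_of_nonpos_of_nonneg _ hp.le
        apply mul_nonpos_of_nonneg_of_nonpos (sq_nonneg x)
        linarith
    have := hmono ⟨hz, h0⟩ (Set.right_mem_Icc.2 (by norm_num)) h0
    simp at this
    have e : z - z ^ 2 / 2 - (-z) ^ 3 ≤ Real.log (1 + z) := by
      have h3 : (-z) ^ 3 = - z ^ 3 := by ring
      rw [h3]
      linarith
    exact e

lemma neg_log_le {u : ℝ} (h0 : 0 ≤ u) (h1 : u ≤ 1 / 2) : -Real.log (1 - u) ≤ u + u ^ 2 := by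
  have h := log_lower (z := -u) (by linarith)
  rw [abs_neg, abs_of_nonneg h0] at h
  have e2 : u ^ 3 ≤ u ^ 2 * (1/2) := by nlinarith [sq_nonneg u]
  have e3 : (1 : ℝ) + -u = 1 - u := by ring
  rw [e3] at h
  nlinarith

lemma log_sq_le {z : ℝ} (hz : -(1/2) ≤ z) : Real.log (1 + z) ^ 2 ≤ z ^ 2 + 3 * |z| ^ 3 := by
  rcases le_total 0 z with h0 | h0
  · have ht0 : 0 ≤ Real.log (1 + z) := Real.log_nonneg (by linarith)
    have htup : Real.log (1 + z) ≤ z := by
      have := Real.log_le_sub_one_of_pos (show 0 < 1 + z by linarith)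
      linarith
    have hz3 : 0 ≤ |z| ^ 3 := by positivity
    nlinarith
  · obtain ⟨u, rfl⟩ : ∃ u, z = -u := ⟨-z, by ring⟩
    have hu0 : 0 ≤ u := by linarith
    have hu1 : u ≤ 1/2 := by linarith
    rw [abs_neg, abs_of_nonneg hu0]
    have h5 := neg_log_le hu0 hu1
    have e3 : (1 : ℝ) + -u = 1 - u := by ring
    rw [e3]
    have ht0 : Real.log (1 - u) ≤ 0 := Real.log_nonpos (by linarith) (by linarith)
    have h6 : Real.log (1 - u) ^ 2 ≤ (u + u ^ 2) ^ 2 := by
      have : Real.log (1 - u) ^ 2 = (-Real.log (1 - u)) ^ 2 := by ring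
      rw [this]
      exact pow_le_pow_left₀ (by linarith) h5 2
    have h7 : u ^ 4 ≤ u ^ 3 := by
      have : u ^ 4 = u ^ 3 * u := by ring
      rw [this]
      exact mul_le_of_le_one_right (by positivity) (by linarith)
    nlinarith

lemma log_cube_le {z : ℝ} (hz : -(1/2) ≤ z) : - Real.log (1 + z) ^ 3 ≤ 4 * |z| ^ 3 := by
  rcases le_total 0 z with h0 | h0
  · have ht0 : 0 ≤ Real.log (1 + z) := Real.log_nonneg (by linarith)
    have h1 : 0 ≤ Real.log (1 + z) ^ 3 := by positivity
    have hz3 : 0 ≤ |z| ^ 3 := by positivity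
    linarith
  · obtain ⟨u, rfl⟩ : ∃ u, z = -u := ⟨-z, by ring⟩
    have hu0 : 0 ≤ u := by linarith
    have hu1 : u ≤ 1/2 := by linarith
    rw [abs_neg, abs_of_nonneg hu0]
    have h5 := neg_log_le hu0 hu1
    have e3 : (1 : ℝ) + -u = 1 - u := by ring
    rw [e3]
    have ht0 : Real.log (1 - u) ≤ 0 := Real.log_nonpos (by linarith) (by linarith)
    have h6 : -Real.log (1 - u) ≤ (3/2) * u := by nlinarith
    have h7 : (-Real.log (1 - u)) ^ 3 ≤ ((3/2) * u) ^ 3 := pow_le_pow_left₀ (by linarith) h6 3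
    have h8 : (-Real.log (1 - u)) ^ 3 = - Real.log (1 - u) ^ 3 := by ring
    have h9 : ((3/2) * u) ^ 3 = 27/8 * u ^ 3 := by ring
    have h10 : 0 ≤ u ^ 3 := by positivity
    rw [h8, h9] at h7
    linarith

lemma inv_add_le {L t : ℝ} (hL : 2 ≤ L) (ht : -1 ≤ t) {w : ℝ} (hw : 0 ≤ w) (h3 : - t ^ 3 ≤ w) :
    1 / (L + t) ≤ 1 / L - t / L ^ 2 + t ^ 2 / L ^ 3 + w := by
  have hLt : 1 ≤ L + t := by linarith
  have hne : L + t ≠ 0 := by linarith
  have hL0 : L ≠ 0 := by linarith
  have e : 1 / (L + t) = 1 / L - t / L ^ 2 + t ^ 2 / L ^ 3 + (- t ^ 3) / (L ^ 3 * (L + t)) := by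
    field_simp
    ring
  rw [e]
  have hden : 1 ≤ L ^ 3 * (L + t) := by
    have : (1:ℝ) ≤ L ^ 3 := one_le_pow₀ (by linarith)
    nlinarith
  have : (- t ^ 3) / (L ^ 3 * (L + t)) ≤ w := by
    rw [div_le_iff₀ (by linarith)]
    nlinarith
  linarith

/-- pointwise Taylor bound for `H` -/
lemma H_taylor {x : ℕ} (hL : 2 ≤ Real.log ((x : ℝ) + 2)) (y : ℕ) :
    H y ≤ 1 / Real.log ((x : ℝ) + 2)
      - (((y : ℝ) - x) / ((x : ℝ) + 2)) / Real.log ((x : ℝ) + 2) ^ 2
      + (1 / (2 * Real.log ((x : ℝ) + 2) ^ 2) + 1 / Real.log ((x : ℝ) + 2) ^ 3)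
          * (((y : ℝ) - x) / ((x : ℝ) + 2)) ^ 2
      + 12 * |((y : ℝ) - x) / ((x : ℝ) + 2)| ^ 3 := by
  set L := Real.log ((x : ℝ) + 2) with hLdef
  set z := ((y : ℝ) - x) / ((x : ℝ) + 2) with hz
  have hx0 : (0:ℝ) ≤ x := by positivity
  have hy0 : (0:ℝ) ≤ y := by positivity
  have hx2 : (0:ℝ) < (x : ℝ) + 2 := by linarith
  have hLpos : 0 < L := by linarith
  have hy2 : (y : ℝ) + 2 = ((x : ℝ) + 2) * (1 + z) := by
    rw [hz]; field_simp; ring
  rcases lt_or_ge z (-(1/2)) with hlt | hge
  · have h1 : (1/8 : ℝ) ≤ |z| ^ 3 := by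
      have : (1/2 : ℝ) ≤ |z| := by
        rw [abs_of_neg (by linarith)]; linarith
      calc (1/8 : ℝ) = (1/2) ^ 3 := by norm_num
        _ ≤ |z| ^ 3 := pow_le_pow_left₀ (by norm_num) this 3
    have h2 := H_le y
    have h3 : 0 ≤ 1 / L := by positivity
    have h4 : 0 ≤ -(z / L ^ 2) := by
      rw [neg_nonneg]
      exact div_nonpos_of_nonpos_of_nonneg (by linarith) (by positivity)
    have h5 : 0 ≤ (1 / (2 * L ^ 2) + 1 / L ^ 3) * z ^ 2 := by positivity
    linarith
  · have h1z : 0 < 1 + z := by linarith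
    have hlog : Real.log ((y : ℝ) + 2) = L + Real.log (1 + z) := by
      rw [hy2, Real.log_mul hx2.ne' h1z.ne']
    have htlow := log_lower hge
    have hsq := log_sq_le hge
    have hcu := log_cube_le hge
    have hz3 : 0 ≤ |z| ^ 3 := by positivity
    have htl : -1 ≤ Real.log (1 + z) := by
      have e := Real.log_two_lt_d9
      have : Real.log (1/2) ≤ Real.log (1 + z) := Real.log_le_log (by norm_num) (by linarith)
      rw [one_div, Real.log_inv] at this
      linarith
    set t := Real.log (1 + z) with ht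
    have hmain := inv_add_le hL htl (w := 4 * |z| ^ 3) (by positivity) hcu
    unfold H
    rw [hlog]
    refine hmain.trans ?_
    have a1 : -(t / L ^ 2) ≤ (-z + z ^ 2 / 2 + |z| ^ 3) / L ^ 2 := by
      rw [← neg_div]
      apply div_le_div_of_nonneg_right _ (by positivity)
      linarith
    have a2 : t ^ 2 / L ^ 3 ≤ (z ^ 2 + 3 * |z| ^ 3) / L ^ 3 :=
      div_le_div_of_nonneg_right hsq (by positivity)
    have a3 : |z| ^ 3 / L ^ 2 ≤ |z| ^ 3 :=
      div_le_self hz3 (one_le_pow₀ (by linarith))
    have a4 : (3 * |z| ^ 3) / L ^ 3 ≤ 3 * |z| ^ 3 :=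
      div_le_self (by positivity) (one_le_pow₀ (by linarith))
    have e1 : (-z + z ^ 2 / 2 + |z| ^ 3) / L ^ 2
        = -(z / L ^ 2) + 1 / (2 * L ^ 2) * z ^ 2 + |z| ^ 3 / L ^ 2 := by
      field_simp
    have e2 : (z ^ 2 + 3 * |z| ^ 3) / L ^ 3 = 1 / L ^ 3 * z ^ 2 + (3 * |z| ^ 3) / L ^ 3 := by
      field_simp
    rw [e1] at a1
    rw [e2] at a2
    have e4 : (1 / (2 * L ^ 2) + 1 / L ^ 3) * z ^ 2
        = 1 / (2 * L ^ 2) * z ^ 2 + 1 / L ^ 3 * z ^ 2 := by ring
    rw [e4]
    linarith

end Pool.Agent.D0H97.ERW
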