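import Pool.Agent.D0H97.ERW.Count

set_option autoImplicit false

open MeasureTheory ProbabilityTheory Filter Topology
open scoped ENNReal BigOperators

namespace Pool.Agent.D0H97.ERW

/-- Assumptions on the success probabilities `q`: elliptic, and `∑ |2 q_i - 1| ≤ C0`. -/
structure Good (q : ℕ → ℝ) (ε C0 : ℝ) : Prop where
  eps : 0 < ε
  lo : ∀ i, ε ≤ q i
  hi : ∀ i, q i ≤ 1 - ε
  sum : ∀ n, ∑ i ∈ Finset.range n, |2 * q i - 1| ≤ C0

lemma Good.q01 {q : ℕ → ℝ} {ε C0 : ℝ} (h : Good q ε C0) (i : ℕ) : 0 ≤ q i ∧ q i ≤ 1 :=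
  ⟨h.eps.le.trans (h.lo i), (h.hi i).trans (by linarith [h.eps])⟩

lemma Good.C0_nonneg {q : ℕ → ℝ} {ε C0 : ℝ} (h : Good q ε C0) : 0 ≤ C0 := by
  simpa using h.sum 0

/-- drift of the first `n` trials -/
def D (q : ℕ → ℝ) (n : ℕ) : ℝ := ∑ i ∈ Finset.range n, (2 * q i - 1)

lemma Good.abs_D {q : ℕ → ℝ} {ε C0 : ℝ} (h : Good q ε C0) (n : ℕ) : |D q n| ≤ C0 :=
  (Finset.abs_sum_le_sum_abs _ _).trans (h.sum n)

/-- multiplicative functional -/
noncomputable def Kf (s : ℝ) (x n : ℕ) (τ : ℕ → Bool) : ℝ := s ^ (su x τ n) * (2 - s) ^ (fa x τ n)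

lemma dep_Kf (s : ℝ) (x n : ℕ) : Dep n (Kf s x n) := by
  intro τ τ' h
  have e1 : su x τ n = su x τ' n := dep_su x n τ τ' h
  have e2 : fa x τ n = fa x τ' n := dep_fa x n τ τ' h
  simp only [Kf, e1, e2]

lemma Kf_nonneg {s : ℝ} (h0 : 0 ≤ s) (h2 : s ≤ 2) (x n : ℕ) (τ : ℕ → Bool) : 0 ≤ Kf s x n τ :=
  mul_nonneg (pow_nonneg h0 _) (pow_nonneg (by linarith) _)

lemma Kf_succ (s : ℝ) (x n : ℕ) (τ : ℕ → Bool) :
    Kf s x (n + 1) τ = Kf s x n τ + (Kf s x n τ * A x n τ) * ((if τ n then s else 2 - s) - 1) := by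
  simp only [Kf, su, fa, A]
  by_cases h1 : fails τ n < x <;> cases h2 : τ n <;> simp [h1] <;> ring

lemma Kf_int {q : ℕ → ℝ} {ε C0 : ℝ} (hq : Good q ε C0) {s : ℝ} (h0 : 0 ≤ s) (h2 : s ≤ 2)
    (x n : ℕ) : ∫ τ, Kf s x n τ ∂(seqLaw q) ≤ Real.exp (|1 - s| * C0) := by
  have key : ∀ n, ∫ τ, Kf s x n τ ∂(seqLaw q)
      ≤ Real.exp (|1 - s| * ∑ i ∈ Finset.range n, |2 * q i - 1|) := by
    intro n
    induction n with
    | zero => simp [Kf, su, fa]
    | succ n ih =>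
      have hd : Dep n (fun τ => Kf s x n τ * A x n τ) := by
        intro τ τ' h
        simp only [dep_Kf s x n τ τ' h, dep_A x n τ τ' h]
      have e1 : ∫ τ, Kf s x (n + 1) τ ∂(seqLaw q) = ∫ τ, Kf s x n τ ∂(seqLaw q) +
          (∫ τ, Kf s x n τ * A x n τ ∂(seqLaw q)) * ((2 * q n - 1) * (s - 1)) := by
        simp_rw [Kf_succ]
        rw [integral_add ((dep_Kf s x n).integrable q)]
        · congr 1
          rw [step hq.q01 hd (fun b => (if b then s else 2 - s) - 1)]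
          congr 1
          simp only [if_true, Bool.false_eq_true, if_false]
          ring
        · have : Dep (n + 1) (fun τ => Kf s x n τ * A x n τ * ((if τ n then s else 2 - s) - 1)) := by
            intro τ τ' h
            obtain ⟨h1, h2⟩ := dep_succ_aux h
            simp only [dep_Kf s x n τ τ' h1, dep_A x n τ τ' h1, h2]
          exact this.integrable q
      have e2 : 0 ≤ ∫ τ, Kf s x n τ * A x n τ ∂(seqLaw q) :=
        integral_nonneg (fun τ => mul_nonneg (Kf_nonneg h0 h2 _ _ _) (A_nonneg _ _ _))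
      have e3 : ∫ τ, Kf s x n τ * A x n τ ∂(seqLaw q) ≤ ∫ τ, Kf s x n τ ∂(seqLaw q) := by
        apply integral_mono (hd.integrable q) ((dep_Kf s x n).integrable q)
        intro τ
        exact mul_le_of_le_one_right (Kf_nonneg h0 h2 _ _ _) (A_le_one _ _ _)
      have e4 : (2 * q n - 1) * (s - 1) ≤ |1 - s| * |2 * q n - 1| := by
        rw [abs_sub_comm, ← abs_mul, mul_comm]
        exact le_abs_self _
      have e5 : 0 ≤ |1 - s| * |2 * q n - 1| := by positivity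
      have e6 : 0 ≤ ∫ τ, Kf s x n τ ∂(seqLaw q) := e2.trans e3
      rw [e1, Finset.sum_range_succ, mul_add, Real.exp_add]
      calc _ ≤ ∫ τ, Kf s x n τ ∂(seqLaw q)
            + (∫ τ, Kf s x n τ ∂(seqLaw q)) * (|1 - s| * |2 * q n - 1|) := by
            have g1 := mul_le_mul_of_nonneg_left e4 e2
            have g2 := mul_le_mul_of_nonneg_right e3 e5
            linarith
        _ = (∫ τ, Kf s x n τ ∂(seqLaw q)) * (|1 - s| * |2 * q n - 1| + 1) := by ring
        _ ≤ _ := by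
            apply mul_le_mul ih (Real.add_one_le_exp _) (by positivity) (Real.exp_nonneg _)
  refine (key n).trans (Real.exp_le_exp.2 ?_)
  exact mul_le_mul_of_nonneg_left (hq.sum n) (abs_nonneg _)

/-- elementary bound: `|u|^3 h^3 ≤ 27 ((1+h)^u + (1-h)^u)` for integers `u`. -/
lemma cube_bound {h : ℝ} (h0 : 0 < h) (h1 : h < 1) (u : ℤ) :
    |(u : ℝ)| ^ 3 * h ^ 3 ≤ 27 * ((1 + h) ^ u + (1 - h) ^ u) := by
  have base : ∀ m : ℕ, (m : ℝ) ^ 3 * h ^ 3 ≤ 27 * (1 + h) ^ m := by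
    intro m
    have h3 : 1 + ((m : ℝ) / 3) * h ≤ (1 + h) ^ ((m : ℝ) / 3) ∨ (m : ℝ) / 3 < 1 := by
      rcases lt_or_ge ((m : ℝ) / 3) 1 with hlt | hge
      · right; exact hlt
      · left
        exact one_add_mul_self_le_rpow_one_add (by linarith) hge
    rcases h3 with h3 | h3
    · have h4 : ((m : ℝ) / 3 * h) ^ 3 ≤ ((1 + h) ^ ((m : ℝ) / 3)) ^ 3 := by
        apply pow_le_pow_left₀ (by positivity)
        linarith
      have h5 : ((1 + h) ^ ((m : ℝ) / 3)) ^ 3 = (1 + h) ^ m := by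
        rw [← Real.rpow_natCast ((1 + h) ^ ((m : ℝ) / 3)) 3, ← Real.rpow_mul (by linarith)]
        push_cast
        rw [div_mul_cancel₀ _ (by norm_num : (3:ℝ) ≠ 0), Real.rpow_natCast]
      rw [h5] at h4
      have : ((m : ℝ) / 3 * h) ^ 3 = (m : ℝ) ^ 3 * h ^ 3 / 27 := by ring
      rw [this] at h4
      linarith
    · have h4 : (m : ℝ) < 3 := by linarith
      have h5 : (m : ℝ) ^ 3 * h ^ 3 ≤ 27 := by
        have a1 : (m : ℝ) ^ 3 ≤ 3 ^ 3 := pow_le_pow_left₀ (by positivity) h4.le 3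
        have a2 : h ^ 3 ≤ 1 := pow_le_one₀ h0.le h1.le
        have a3 : 0 ≤ h ^ 3 := by positivity
        nlinarith
      have h6 : (1 : ℝ) ≤ (1 + h) ^ m := one_le_pow₀ (by linarith)
      linarith
  have hneg : ∀ m : ℕ, (1 + h) ^ m ≤ (1 - h) ^ (-(m : ℤ)) := by
    intro m
    rw [zpow_neg, zpow_natCast, ← inv_pow]
    apply pow_le_pow_left₀ (by linarith)
    rw [le_inv_comm₀ (by linarith) (by linarith), inv_eq_one_div, le_div_iff₀ (by linarith)]
    nlinarith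
  have p1 : (0:ℝ) < (1 + h) ^ u := by positivity
  have p2 : (0:ℝ) < (1 - h) ^ u := zpow_pos (by linarith) _
  rcases le_total 0 u with hu | hu
  · obtain ⟨m, rfl⟩ := Int.eq_ofNat_of_zero_le hu
    have := base m
    have e : |(((m : ℕ) : ℤ) : ℝ)| = (m : ℝ) := by simp
    rw [e]
    simp only [zpow_natCast] at *
    linarith
  · obtain ⟨m, hm⟩ := Int.eq_ofNat_of_zero_le (neg_nonneg.2 hu)
    have hu' : u = -(m : ℤ) := by
      have : -u = (m : ℤ) := by simpa using hm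
      omega
    subst hu'
    have := base m
    have e : |(((-(m : ℤ)) : ℤ) : ℝ)| = (m : ℝ) := by simp
    rw [e]
    have := hneg m
    linarith

end Pool.Agent.D0H97.ERW
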