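import Pool.Agent.D0H97.ERW.Mom

set_option autoImplicit false

open MeasureTheory ProbabilityTheory Filter Topology
open scoped ENNReal BigOperators

namespace Pool.Agent.D0H97.ERW

/-- the constant of the moment bounds -/
noncomputable def BB (C0 : ℝ) : ℝ := 54 * Real.exp (C0 + 2)

lemma BB_pos (C0 : ℝ) : 0 < BB C0 := by unfold BB; positivity

lemma one_sub_pow_ge {x : ℕ} (hx : 2 ≤ x) : Real.exp (-2) ≤ (1 - 1 / (x : ℝ)) ^ x := by
  have hx' : (2 : ℝ) ≤ x := by exact_mod_cast hx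
  have h1 : Real.exp (-(1 / ((x : ℝ) - 1))) ≤ 1 - 1 / (x : ℝ) := by
    have h2 : 1 / ((x : ℝ) - 1) + 1 ≤ Real.exp (1 / ((x : ℝ) - 1)) := Real.add_one_le_exp _
    have hne : (x : ℝ) - 1 ≠ 0 := by linarith
    have h3 : 1 / ((x : ℝ) - 1) + 1 = x / (x - 1) := by
      rw [div_add_one hne]
      congr 1
      ring
    rw [h3] at h2
    rw [Real.exp_neg]
    have h4 : (x / (x - 1) : ℝ)⁻¹ = 1 - 1 / (x : ℝ) := by
      rw [inv_div]
      field_simp
    rw [← h4]
    apply inv_anti₀ _ h2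
    apply div_pos <;> linarith
  calc Real.exp (-2) ≤ Real.exp (-(1 / ((x : ℝ) - 1))) ^ x := by
        rw [← Real.exp_nat_mul]
        apply Real.exp_le_exp.2
        have : (x : ℝ) * (1 / ((x : ℝ) - 1)) ≤ 2 := by
          rw [mul_one_div, div_le_iff₀ (by linarith)]
          linarith
        linarith
    _ ≤ _ := pow_le_pow_left₀ (Real.exp_nonneg _) h1 x

lemma Y_int (x n : ℕ) (τ : ℕ → Bool) : Y x n τ = (((su x τ n : ℤ) - (fa x τ n : ℤ) : ℤ) : ℝ) := by
  unfold Y; push_cast; ring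

lemma hh {x : ℕ} (hx : 2 ≤ x) : 0 < 1 / Real.sqrt x ∧ 1 / Real.sqrt x < 1 ∧
    (1 / Real.sqrt x) ^ 2 = 1 / (x : ℝ) := by
  have hx' : (2 : ℝ) ≤ x := by exact_mod_cast hx
  have h1 : 1 < Real.sqrt x := by
    rw [show (1:ℝ) = Real.sqrt 1 by simp]
    exact Real.sqrt_lt_sqrt (by norm_num) (by linarith)
  refine ⟨by positivity, ?_, ?_⟩
  · rw [div_lt_one (by linarith)]; exact h1
  · rw [div_pow, Real.sq_sqrt (by linarith), one_pow]

lemma zpow_bound {x : ℕ} (hx : 2 ≤ x) {h : ℝ} (h1 : |h| < 1) (h2 : h ^ 2 = 1 / (x : ℝ))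
    (n : ℕ) (τ : ℕ → Bool) :
    Real.exp (-2) * (1 + h) ^ ((su x τ n : ℤ) - (fa x τ n : ℤ)) ≤ Kf (1 + h) x n τ := by
  obtain ⟨g1, g2⟩ := abs_lt.1 h1
  have hp : (0:ℝ) < 1 + h := by linarith
  have e1 : Kf (1 + h) x n τ
      = (1 + h) ^ ((su x τ n : ℤ) - (fa x τ n : ℤ)) * (1 - 1 / (x : ℝ)) ^ (fa x τ n) := by
    unfold Kf
    rw [zpow_sub₀ hp.ne', zpow_natCast, zpow_natCast, ← h2]
    have : (1 - h ^ 2 : ℝ) = (1 + h) * (2 - (1 + h)) := by ring
    rw [this, mul_pow]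
    field_simp
  rw [e1, mul_comm]
  apply mul_le_mul_of_nonneg_left _ (zpow_pos hp _).le
  refine (one_sub_pow_ge hx).trans ?_
  have hx' : (2 : ℝ) ≤ x := by exact_mod_cast hx
  have hlo : (0:ℝ) ≤ 1 - 1 / (x : ℝ) := by
    rw [sub_nonneg, div_le_one (by linarith)]; linarith
  have hhi : 1 - 1 / (x : ℝ) ≤ 1 := by
    have : (0:ℝ) ≤ 1 / (x : ℝ) := by positivity
    linarith
  exact pow_le_pow_of_le_one hlo hhi (fa_le x τ n)

lemma int_abs_le {q : ℕ → ℝ} {ε C0 : ℝ} (hq : Good q ε C0) {h : ℝ} (h1 : |h| < 1) {x : ℕ}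
    (hx : 2 ≤ x) (h2 : h ^ 2 = 1 / (x : ℝ)) (n : ℕ) :
    ∫ τ, (1 + h) ^ ((su x τ n : ℤ) - (fa x τ n : ℤ)) ∂(seqLaw q) ≤ Real.exp (C0 + 2) := by
  obtain ⟨g1, g2⟩ := abs_lt.1 h1
  have d1 : Dep n (fun τ => (1 + h) ^ ((su x τ n : ℤ) - (fa x τ n : ℤ))) := by
    intro τ τ' hh
    have e1 : su x τ n = su x τ' n := dep_su x n τ τ' hh
    have e2 : fa x τ n = fa x τ' n := dep_fa x n τ τ' hh
    simp only [e1, e2]
  have k1 := Kf_int hq (s := 1 + h) (by linarith) (by linarith) x n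
  have k2 : ∫ τ, Real.exp (-2) * (1 + h) ^ ((su x τ n : ℤ) - (fa x τ n : ℤ)) ∂(seqLaw q)
      ≤ ∫ τ, Kf (1 + h) x n τ ∂(seqLaw q) := by
    apply integral_mono ((d1.integrable q).const_mul _) ((dep_Kf _ x n).integrable q)
    intro τ
    exact zpow_bound hx h1 h2 n τ
  rw [integral_const_mul] at k2
  have k3 : Real.exp (|1 - (1 + h)| * C0) ≤ Real.exp C0 := by
    apply Real.exp_le_exp.2
    have : |1 - (1 + h)| ≤ 1 := by
      rw [show 1 - (1 + h) = -h by ring, abs_neg]; exact h1.le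
    nlinarith [hq.C0_nonneg]
  have k4 := (k2.trans k1).trans k3
  rw [Real.exp_add]
  have e : Real.exp (-2) * Real.exp 2 = 1 := by rw [← Real.exp_add]; simp
  calc _ = (Real.exp (-2) * ∫ τ, (1 + h) ^ ((su x τ n : ℤ) - (fa x τ n : ℤ)) ∂(seqLaw q))
        * Real.exp 2 := by
        rw [mul_comm (Real.exp (-2)), mul_assoc, e, mul_one]
    _ ≤ _ := mul_le_mul_of_nonneg_right k4 (Real.exp_nonneg _)

/-- third absolute moment of the stopped walk, uniformly in `n` -/
lemma Y_cube {q : ℕ → ℝ} {ε C0 : ℝ} (hq : Good q ε C0) {x : ℕ} (hx : 2 ≤ x) (n : ℕ) :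
    (∫ τ, |Y x n τ| ^ 3 ∂(seqLaw q)) * (1 / Real.sqrt x) ^ 3 ≤ BB C0 := by
  obtain ⟨a1, a2, a3⟩ := hh hx
  set h := 1 / Real.sqrt x with hdef
  have d1 : ∀ h : ℝ, Dep n (fun τ => (1 + h) ^ ((su x τ n : ℤ) - (fa x τ n : ℤ))) := by
    intro h τ τ' hh
    have e1 : su x τ n = su x τ' n := dep_su x n τ τ' hh
    have e2 : fa x τ n = fa x τ' n := dep_fa x n τ τ' hh
    simp only [e1, e2]
  have i1 := int_abs_le hq (h := h) (by rw [abs_of_pos a1]; exact a2) hx a3 n
  have i2 := int_abs_le hq (h := -h) (by rw [abs_neg, abs_of_pos a1]; exact a2) hx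
    (by rw [neg_sq]; exact a3) n
  have d0 : Dep n (fun τ => |Y x n τ| ^ 3) := fun τ τ' hh => by simp only [dep_Y x n τ τ' hh]
  rw [← integral_mul_const]
  calc ∫ τ, |Y x n τ| ^ 3 * h ^ 3 ∂(seqLaw q)
      ≤ ∫ τ, 27 * ((1 + h) ^ ((su x τ n : ℤ) - (fa x τ n : ℤ))
          + (1 + -h) ^ ((su x τ n : ℤ) - (fa x τ n : ℤ))) ∂(seqLaw q) := by
        apply integral_mono ((d0.integrable q).mul_const _)
          ((((d1 h).integrable q).add ((d1 (-h)).integrable q)).const_mul 27)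
        intro τ
        simp only
        rw [Y_int]
        have := cube_bound a1 a2 ((su x τ n : ℤ) - (fa x τ n : ℤ))
        simpa [sub_eq_add_neg] using this
    _ = 27 * (∫ τ, (1 + h) ^ ((su x τ n : ℤ) - (fa x τ n : ℤ)) ∂(seqLaw q)
          + ∫ τ, (1 + -h) ^ ((su x τ n : ℤ) - (fa x τ n : ℤ)) ∂(seqLaw q)) := by
        rw [integral_const_mul, integral_add ((d1 h).integrable q) ((d1 (-h)).integrable q)]
    _ ≤ _ := by unfold BB; linarith

lemma Y_abs {q : ℕ → ℝ} {ε C0 : ℝ} (hq : Good q ε C0) {x : ℕ} (hx : 2 ≤ x) (n : ℕ) :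
    ∫ τ, |Y x n τ| ∂(seqLaw q) ≤ (1 + BB C0) * Real.sqrt x := by
  obtain ⟨a1, a2, a3⟩ := hh hx
  have hc := Y_cube hq hx n
  set h := 1 / Real.sqrt x with hdef
  have hs : 0 < Real.sqrt x := by
    rcases Nat.eq_zero_or_pos x with h0 | h0
    · omega
    · exact Real.sqrt_pos.2 (by exact_mod_cast h0)
  have d0 : Dep n (fun τ => |Y x n τ| ^ 3) := fun τ τ' hh => by simp only [dep_Y x n τ τ' hh]
  have d1 : Dep n (fun τ => |Y x n τ|) := fun τ τ' hh => by simp only [dep_Y x n τ τ' hh]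
  have h1 : ∫ τ, |Y x n τ| * h ∂(seqLaw q) ≤ 1 + BB C0 := by
    calc _ ≤ ∫ τ, (1 + |Y x n τ| ^ 3 * h ^ 3) ∂(seqLaw q) := by
          apply integral_mono ((d1.integrable q).mul_const _)
            ((integrable_const _).add ((d0.integrable q).mul_const _))
          intro τ
          change |Y x n τ| * h ≤ 1 + |Y x n τ| ^ 3 * h ^ 3
          have hn : 0 ≤ |Y x n τ| * h := by positivity
          rw [← mul_pow]
          rcases le_total (|Y x n τ| * h) 1 with hle | hle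
          · have : 0 ≤ (|Y x n τ| * h) ^ 3 := by positivity
            linarith
          · have : |Y x n τ| * h ≤ (|Y x n τ| * h) ^ 3 := by
              calc _ = (|Y x n τ| * h) * 1 := by ring
                _ ≤ (|Y x n τ| * h) * (|Y x n τ| * h) ^ 2 := by
                  apply mul_le_mul_of_nonneg_left _ hn
                  exact one_le_pow₀ hle
                _ = _ := by ring
            linarith
      _ = 1 + (∫ τ, |Y x n τ| ^ 3 ∂(seqLaw q)) * h ^ 3 := by
          rw [integral_add (integrable_const _) ((d0.integrable q).mul_const _),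
            integral_mul_const]
          simp
      _ ≤ _ := by linarith
  rw [integral_mul_const, hdef, mul_one_div, div_le_iff₀ hs] at h1
  exact h1

lemma E_Y {q : ℕ → ℝ} {ε C0 : ℝ} (hq : Good q ε C0) (x n : ℕ) :
    ∫ τ, Y x n τ ∂(seqLaw q)
      = ∑ i ∈ Finset.range n, (2 * q i - 1) * ∫ τ, A x i τ ∂(seqLaw q) := by
  induction n with
  | zero => simp [Y_zero]
  | succ n ih =>
    simp_rw [Y_succ]
    rw [integral_add ((dep_Y x n).integrable q), ih, Finset.sum_range_succ,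
      step hq.q01 (dep_A x n) sg]
    · simp only [sg, if_true, Bool.false_eq_true, if_false]
      ring
    · have : Dep (n + 1) (fun τ => A x n τ * sg (τ n)) := by
        intro τ τ' h
        obtain ⟨h1, h2⟩ := dep_succ_aux h
        simp only [dep_A x n τ τ' h1, h2]
      exact this.integrable q

lemma E_Y2 {q : ℕ → ℝ} {ε C0 : ℝ} (hq : Good q ε C0) (x n : ℕ) :
    ∫ τ, (Y x n τ) ^ 2 ∂(seqLaw q)
      = ∫ τ, (al x τ n : ℝ) ∂(seqLaw q)
        + 2 * ∑ i ∈ Finset.range n, (2 * q i - 1) * ∫ τ, Y x i τ * A x i τ ∂(seqLaw q) := by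
  induction n with
  | zero => simp [Y_zero, al]
  | succ n ih =>
    have e1 : ∀ τ, (Y x (n + 1) τ) ^ 2
        = (Y x n τ) ^ 2 + (A x n τ + 2 * ((Y x n τ * A x n τ) * sg (τ n))) := by
      intro τ
      rw [Y_succ]
      have hs : sg (τ n) * sg (τ n) = 1 := by unfold sg; split_ifs <;> norm_num
      have ha := A_sq x n τ
      calc _ = (Y x n τ) ^ 2 + ((A x n τ * A x n τ) * (sg (τ n) * sg (τ n))
            + 2 * ((Y x n τ * A x n τ) * sg (τ n))) := by ring
        _ = _ := by rw [ha, hs, mul_one]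
    have dYA : Dep n (fun τ => Y x n τ * A x n τ) := fun τ τ' h => by
      simp only [dep_A x n τ τ' h, dep_Y x n τ τ' h]
    have dY2 : Dep n (fun τ => Y x n τ ^ 2) := fun τ τ' h => by
      simp only [dep_Y x n τ τ' h]
    have dal : Dep n (fun τ => (al x τ n : ℝ)) := fun τ τ' h => by
      have : al x τ n = al x τ' n := dep_al x n τ τ' h
      simp only [this]
    have d3 : Dep (n + 1) (fun τ => (Y x n τ * A x n τ) * sg (τ n)) := by
      intro τ τ' h
      obtain ⟨h1, h2⟩ := dep_succ_aux h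
      simp only [dep_A x n τ τ' h1, dep_Y x n τ τ' h1, h2]
    have e2 : ∀ τ, (al x τ (n + 1) : ℝ) = al x τ n + A x n τ := by
      intro τ
      rw [al_cast, al_cast, Finset.sum_range_succ]
    have i1 : Integrable (fun τ => A x n τ + 2 * ((Y x n τ * A x n τ) * sg (τ n))) (seqLaw q) :=
      ((dep_A x n).integrable q).add ((d3.integrable q).const_mul 2)
    simp_rw [e1, e2]
    rw [integral_add (dY2.integrable q) i1,
      integral_add ((dep_A x n).integrable q) ((d3.integrable q).const_mul 2),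
      integral_const_mul, step hq.q01 dYA sg, ih, Finset.sum_range_succ,
      integral_add (dal.integrable q) ((dep_A x n).integrable q)]
    simp only [sg, if_true, Bool.false_eq_true, if_false]
    ring

end Pool.Agent.D0H97.ERW
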