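import Mathlib

set_option autoImplicit false

open MeasureTheory ProbabilityTheory Filter Topology
open scoped ENNReal BigOperators

namespace Pool.Agent.D0H97.ERW

/-- The law of a coin: `true` with probability `r`, `false` with probability `1 - r`
(for `0 ≤ r ≤ 1`; otherwise `r` is replaced by the nearest point of `[0, 1]`). -/
noncomputable def coin (r : ℝ) : Measure Bool :=
  bernoulliMeasure true false (Set.projIcc (0:ℝ) 1 zero_le_one r)

instance (r : ℝ) : IsProbabilityMeasure (coin r) := by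
  unfold coin; infer_instance

/-- independent coins -/
noncomputable def seqLaw (q : ℕ → ℝ) : Measure (ℕ → Bool) :=
  Measure.infinitePi (fun i => coin (q i))

instance (q : ℕ → ℝ) : IsProbabilityMeasure (seqLaw q) := by
  unfold seqLaw; infer_instance

lemma integral_coin {r : ℝ} (h0 : 0 ≤ r) (h1 : r ≤ 1) (g : Bool → ℝ) :
    ∫ b, g b ∂(coin r) = r * g true + (1 - r) * g false := by
  unfold coin
  rw [bernoulliMeasure_def, integral_add_measure, integral_smul_nnreal_measure,
    integral_smul_nnreal_measure, integral_dirac, integral_dirac]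
  · have h2 : Set.projIcc (0:ℝ) 1 zero_le_one r = ⟨r, h0, h1⟩ := Set.projIcc_of_mem _ ⟨h0, h1⟩
    rw [h2]
    simp [NNReal.smul_def]
  · exact Integrable.of_finite
  · exact Integrable.of_finite

lemma coin_real_true {r : ℝ} (h0 : 0 ≤ r) (h1 : r ≤ 1) : coin r {true} = ENNReal.ofReal r := by
  have h := integral_coin h0 h1 (({true} : Set Bool).indicator 1)
  rw [integral_indicator_one (measurableSet_singleton _)] at h
  have h2 : (coin r).real {true} = r := by simpa using h
  calc coin r {true} = ENNReal.ofReal ((coin r).real {true}) := by rw [ofReal_measureReal]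
    _ = ENNReal.ofReal r := by rw [h2]

lemma coin_real_false {r : ℝ} (h0 : 0 ≤ r) (h1 : r ≤ 1) :
    coin r {false} = ENNReal.ofReal (1 - r) := by
  have h := integral_coin h0 h1 (({false} : Set Bool).indicator 1)
  rw [integral_indicator_one (measurableSet_singleton _)] at h
  have h2 : (coin r).real {false} = 1 - r := by simpa using h
  calc coin r {false} = ENNReal.ofReal ((coin r).real {false}) := by rw [ofReal_measureReal]
    _ = ENNReal.ofReal (1 - r) := by rw [h2]

/-- a function of the first `n` coins -/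
def Dep (n : ℕ) {α : Type*} (φ : (ℕ → Bool) → α) : Prop :=
  ∀ τ τ' : ℕ → Bool, (∀ i < n, τ i = τ' i) → φ τ = φ τ'

lemma Dep.mono {n m : ℕ} (h : n ≤ m) {α : Type*} {φ : (ℕ → Bool) → α} (hφ : Dep n φ) : Dep m φ :=
  fun τ τ' hh => hφ τ τ' (fun i hi => hh i (lt_of_lt_of_le hi h))

/-- extension of a finite word by `false` -/
def extn (n : ℕ) (u : (Finset.range n) → Bool) : ℕ → Bool :=
  fun i => if h : i ∈ Finset.range n then u ⟨i, h⟩ else false

lemma Dep.eq {n : ℕ} {α : Type*} {φ : (ℕ → Bool) → α} (hφ : Dep n φ) :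
    φ = (fun u => φ (extn n u)) ∘ (fun (τ : ℕ → Bool) (i : Finset.range n) => τ i) := by
  funext τ
  apply hφ
  intro i hi
  simp [extn, hi]

lemma meas_restr (n : ℕ) :
    Measurable (fun (τ : ℕ → Bool) (i : Finset.range n) => τ i) :=
  measurable_pi_lambda _ (fun i => measurable_pi_apply _)

lemma Dep.measurable {n : ℕ} {α : Type*} [MeasurableSpace α] {φ : (ℕ → Bool) → α}
    (hφ : Dep n φ) : Measurable φ := by
  rw [hφ.eq]
  exact (measurable_of_finite _).comp (meas_restr n)

lemma Dep.bdd {n : ℕ} {φ : (ℕ → Bool) → ℝ} (hφ : Dep n φ) : ∃ C, ∀ τ, |φ τ| ≤ C := by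
  obtain ⟨C, hC⟩ := (Set.finite_range (fun u => |φ (extn n u)|)).bddAbove
  refine ⟨C, fun τ => ?_⟩
  rw [hφ.eq]
  exact hC ⟨_, rfl⟩

lemma Dep.integrable {n : ℕ} {φ : (ℕ → Bool) → ℝ} (hφ : Dep n φ) (q : ℕ → ℝ) :
    Integrable φ (seqLaw q) := by
  obtain ⟨C, hC⟩ := hφ.bdd
  exact Integrable.of_bound hφ.measurable.aestronglyMeasurable C
    (ae_of_all _ (fun τ => by rw [Real.norm_eq_abs]; exact hC τ))

lemma indep_step (q : ℕ → ℝ) (n : ℕ) :
    IndepFun (fun (τ : ℕ → Bool) (i : Finset.range n) => τ i) (fun τ : ℕ → Bool => τ n)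
      (seqLaw q) := by
  have h : iIndepFun (fun (i : ℕ) (τ : ℕ → Bool) => τ i) (seqLaw q) :=
    iIndepFun_infinitePi (X := fun _ b => b) (fun _ => measurable_id)
  have h2 := h.indepFun_finset (Finset.range n) {n} (by simp) (fun i => measurable_pi_apply i)
  exact h2.comp (φ := id) (ψ := fun (u : ({n} : Finset ℕ) → Bool) => u ⟨n, by simp⟩)
    measurable_id (measurable_pi_apply _)

lemma step {q : ℕ → ℝ} (hq : ∀ i, 0 ≤ q i ∧ q i ≤ 1) {n : ℕ} {φ : (ℕ → Bool) → ℝ}
    (hφ : Dep n φ) (g : Bool → ℝ) :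
    ∫ τ, φ τ * g (τ n) ∂(seqLaw q)
      = (∫ τ, φ τ ∂(seqLaw q)) * (q n * g true + (1 - q n) * g false) := by
  have h1 : IndepFun φ (fun τ : ℕ → Bool => g (τ n)) (seqLaw q) := by
    rw [hφ.eq]
    exact (indep_step q n).comp (measurable_of_finite _) (measurable_of_finite g)
  rw [h1.integral_fun_mul_eq_mul_integral hφ.measurable.aestronglyMeasurable
    ((measurable_of_finite g).comp (measurable_pi_apply n)).aestronglyMeasurable]
  congr 1
  have h2 : (seqLaw q).map (fun τ : ℕ → Bool => τ n) = coin (q n) := by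
    unfold seqLaw
    exact Measure.infinitePi_map_eval _ n
  rw [← integral_coin (hq n).1 (hq n).2 g, ← h2,
    integral_map (measurable_pi_apply n).aemeasurable
      (measurable_of_finite g).aestronglyMeasurable]

end Pool.Agent.D0H97.ERW
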