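import Pool.Agent.D0H97.ERW.Lyap

set_option autoImplicit false

open MeasureTheory ProbabilityTheory Filter Topology
open scoped ENNReal BigOperators

namespace Pool.Agent.D0H97.ERW

lemma eventually_log_ge (M : ℝ) : ∀ᶠ x : ℕ in atTop, M ≤ Real.log ((x : ℝ) + 2) := by
  have h : Tendsto (fun x : ℕ => Real.log ((x : ℝ) + 2)) atTop atTop :=
    Real.tendsto_log_atTop.comp (tendsto_atTop_add_const_right _ _ tendsto_natCast_atTop_atTop)
  exact h.eventually_ge_atTop M

lemma eventually_poly (C : ℝ) (hC : 0 ≤ C) :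
    ∀ᶠ x : ℕ in atTop, C * Real.log ((x : ℝ) + 2) ^ 3 * ((x : ℝ) + 2) ≤ (x : ℝ) * Real.sqrt x := by
  -- log (x+2)^3 ≤ c * sqrt x eventually
  have h1 : (fun y : ℝ => Real.log y ^ 3) =o[atTop] (fun y : ℝ => y ^ (1/4 : ℝ)) := by
    have := isLittleO_log_rpow_rpow_atTop (s := 1/4) (3:ℝ) (by norm_num)
    refine this.congr' ?_ (Filter.EventuallyEq.refl _ _)
    filter_upwards with y
    rw [← Real.rpow_natCast]; norm_num
  have h2 : ∀ᶠ y : ℝ in atTop, |Real.log y ^ 3| ≤ 1 * |y ^ (1/4 : ℝ)| := by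
    have := h1.bound (c := 1) (by norm_num)
    simpa [Real.norm_eq_abs] using this
  have h3 : Tendsto (fun x : ℕ => (x : ℝ) + 2) atTop atTop :=
    tendsto_atTop_add_const_right _ _ tendsto_natCast_atTop_atTop
  have h4 := h3.eventually h2
  have h5 : ∀ᶠ x : ℕ in atTop, 9 * C ^ 2 * 3 ≤ Real.sqrt x := by
    have : Tendsto (fun x : ℕ => Real.sqrt x) atTop atTop :=
      Real.tendsto_sqrt_atTop.comp tendsto_natCast_atTop_atTop
    exact this.eventually_ge_atTop _
  filter_upwards [h4, h5, eventually_ge_atTop 2] with x hx4 hx5 hx2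
  have hx2' : (2:ℝ) ≤ x := by exact_mod_cast hx2
  have hlog : 0 ≤ Real.log ((x : ℝ) + 2) := (log_two_pos' x).le
  rw [abs_of_nonneg (by positivity), abs_of_nonneg (by positivity), one_mul] at hx4
  set s := Real.sqrt x with hs
  have hs2 : s ^ 2 = x := Real.sq_sqrt (by linarith)
  have hs0 : 0 ≤ s := Real.sqrt_nonneg _
  -- (x+2)^{1/4} ≤ (3x)^{1/4}... use square: let r = (x+2)^{1/4}, r^4 = x+2 ≤ 2x
  set r := ((x : ℝ) + 2) ^ (1/4 : ℝ) with hr
  have hr0 : 0 ≤ r := by positivity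
  have hr4 : r ^ 4 = (x : ℝ) + 2 := by
    rw [hr, ← Real.rpow_natCast, ← Real.rpow_mul (by positivity)]
    norm_num
  have hxx : (x : ℝ) + 2 ≤ 2 * x := by linarith
  -- want C r (x+2) ≤ x s ; suffices 2 C r ≤ s
  have key : 2 * C * r ≤ s := by
    have h6 : (2 * C * r) ^ 2 ≤ s ^ 2 := by
      have hr2 : r ^ 2 ≤ 2 * s := by
        have : (r ^ 2) ^ 2 ≤ (2 * s) ^ 2 := by
          have e1 : (r ^ 2) ^ 2 = r ^ 4 := by ring
          rw [e1, hr4, mul_pow, hs2]
          linarith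
        exact le_of_sq_le_sq this (by positivity)
      calc (2 * C * r) ^ 2 = 4 * C ^ 2 * r ^ 2 := by ring
        _ ≤ 4 * C ^ 2 * (2 * s) := by gcongr
        _ = (8 * C ^ 2) * s := by ring
        _ ≤ s * s := by
            apply mul_le_mul_of_nonneg_right _ hs0
            nlinarith [sq_nonneg C]
        _ = s ^ 2 := by ring
    exact le_of_sq_le_sq h6 hs0
  calc C * Real.log ((x : ℝ) + 2) ^ 3 * ((x : ℝ) + 2)
      ≤ C * r * (2 * x) := by gcongr
    _ = (2 * C * r) * x := by ring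
    _ ≤ s * x := by gcongr
    _ = _ := by ring

/-- the supermartingale property of `H` for the environment `qq` -/
theorem super : ∃ x0 : ℕ, ∀ x, x0 ≤ x → ∫ τ, H (U x τ) ∂(seqLaw qq) ≤ H x := by
  set B := BB 3 with hB
  have hBpos : 0 < B := BB_pos 3
  set C1 : ℝ := 2 * 3 * (1 + BB 3) with hC1
  have hC1pos : 0 < C1 := by positivity
  have ev1 := eventually_log_ge 15
  have ev2 := eventually_poly (2 * C1 + 12 * B) (by positivity)
  obtain ⟨x0, hx0⟩ := eventually_atTop.1 ((ev1.and ev2).and (eventually_ge_atTop 5))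
  refine ⟨x0, fun x hx => ?_⟩
  obtain ⟨⟨hL, hpoly⟩, hx5⟩ := hx0 x hx
  have hx2 : 2 ≤ x := by omega
  have hx5' : (5:ℝ) ≤ x := by exact_mod_cast hx5
  have hrho := (rho_bounds hx5).1
  have hrhole : ∫ τ, ((U x τ : ℝ) - x) ∂(seqLaw qq) ≤ 3 := by
    rw [E_first good_qq hx2]
    calc _ ≤ ∫ _τ, (3:ℝ) ∂(seqLaw qq) := by
          apply integral_mono (integrable_D good_qq x) (integrable_const _)
          intro τ
          exact (le_abs_self _).trans (good_qq.abs_D _)
      _ = 3 := by simp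
  have hsec := E_second good_qq hx2
  rw [E_T good_qq hx2] at hsec
  obtain ⟨hi3, hcube⟩ := int_cube good_qq hx2
  set ρ := ∫ τ, ((U x τ : ℝ) - x) ∂(seqLaw qq) with hρ
  set v := ∫ τ, ((U x τ : ℝ) - x) ^ 2 ∂(seqLaw qq) with hv
  set w := ∫ τ, |(U x τ : ℝ) - x| ^ 3 ∂(seqLaw qq) with hw
  set L := Real.log ((x : ℝ) + 2) with hLdef
  set s := Real.sqrt x with hs
  have hs0 : 0 < s := Real.sqrt_pos.2 (by linarith)
  have hs2 : s ^ 2 = x := Real.sq_sqrt (by linarith)
  set X : ℝ := (x : ℝ) + 2 with hX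
  have hXpos : 0 < X := by linarith
  have hLpos : 0 < L := by linarith
  have hi1 : Integrable (fun τ => (U x τ : ℝ) - x) (seqLaw qq) := by
    have := (int_U1 good_qq hx2).sub (integrable_const (2 * (x:ℝ)))
    refine this.congr (ae_of_all _ (fun τ => ?_))
    simp only [Pi.sub_apply]; ring
  have hi2 : Integrable (fun τ => ((U x τ : ℝ) - x) ^ 2) (seqLaw qq) := by
    apply (int_U2 good_qq hx2).mono'
    · have := measurable_U x
      have hm : Measurable (fun τ => ((U x τ : ℝ) - x) ^ 2) := by fun_prop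
      exact hm.aestronglyMeasurable
    · apply ae_of_all
      intro τ
      rw [Real.norm_of_nonneg (sq_nonneg _)]
      have h1 : (0:ℝ) ≤ U x τ := by positivity
      nlinarith
  -- integrate the Taylor bound
  have hint : ∫ τ, H (U x τ) ∂(seqLaw qq) ≤
      1 / L - (ρ / X) / L ^ 2 + (1 / (2 * L ^ 2) + 1 / L ^ 3) * (v / X ^ 2) + 12 * (w / X ^ 3) := by
    have hR : Integrable (fun τ => 1 / L - (((U x τ : ℝ) - x) / X) / L ^ 2
        + (1 / (2 * L ^ 2) + 1 / L ^ 3) * (((U x τ : ℝ) - x) / X) ^ 2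
        + 12 * |((U x τ : ℝ) - x) / X| ^ 3) (seqLaw qq) := by
      apply Integrable.add
      · apply Integrable.add
        · exact (integrable_const _).sub ((hi1.div_const X).div_const _)
        · apply Integrable.const_mul
          simp_rw [div_pow]
          exact hi2.div_const _
      · apply Integrable.const_mul
        simp_rw [abs_div, div_pow]
        exact hi3.div_const _
    have hHint : Integrable (fun τ => H (U x τ)) (seqLaw qq) := by
      apply Integrable.of_bound (C := 3/2)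
      · exact ((measurable_of_countable H).comp (measurable_U x)).aestronglyMeasurable
      · apply ae_of_all
        intro τ
        rw [Real.norm_of_nonneg (H_pos _).le]
        exact H_le _
    refine (integral_mono hHint hR (fun τ => H_taylor (by linarith) _)).trans (le_of_eq ?_)
    have e1 : ∀ τ, 1 / L - (((U x τ : ℝ) - x) / X) / L ^ 2
        + (1 / (2 * L ^ 2) + 1 / L ^ 3) * (((U x τ : ℝ) - x) / X) ^ 2
        + 12 * |((U x τ : ℝ) - x) / X| ^ 3
        = (1 / L - (1 / X / L ^ 2) * ((U x τ : ℝ) - x))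
        + ((1 / (2 * L ^ 2) + 1 / L ^ 3) * (1 / X ^ 2) * ((U x τ : ℝ) - x) ^ 2
        + 12 * (1 / X ^ 3) * |(U x τ : ℝ) - x| ^ 3) := by
      intro τ
      rw [abs_div, abs_of_pos hXpos]
      ring_nf
    simp_rw [e1]
    have k1 : Integrable (fun _τ : ℕ → Bool => 1 / L) (seqLaw qq) := integrable_const _
    have k2 : Integrable (fun τ => (1 / X / L ^ 2) * ((U x τ : ℝ) - x)) (seqLaw qq) :=
      hi1.const_mul _
    have k3 : Integrable (fun τ => (1 / (2 * L ^ 2) + 1 / L ^ 3) * (1 / X ^ 2)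
        * ((U x τ : ℝ) - x) ^ 2) (seqLaw qq) := hi2.const_mul _
    have k4 : Integrable (fun τ => 12 * (1 / X ^ 3) * |(U x τ : ℝ) - x| ^ 3) (seqLaw qq) :=
      hi3.const_mul _
    have j1 : Integrable (fun τ => 1 / L - (1 / X / L ^ 2) * ((U x τ : ℝ) - x)) (seqLaw qq) :=
      k1.sub k2
    have j2 : Integrable (fun τ => (1 / (2 * L ^ 2) + 1 / L ^ 3) * (1 / X ^ 2)
        * ((U x τ : ℝ) - x) ^ 2 + 12 * (1 / X ^ 3) * |(U x τ : ℝ) - x| ^ 3) (seqLaw qq) :=
      k3.add k4
    rw [integral_add j1 j2, integral_sub k1 k2, integral_add k3 k4,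
      integral_const_mul, integral_const_mul, integral_const_mul]
    simp only [integral_const, probReal_univ, one_smul]
    rw [← hρ, ← hv, ← hw]
    ring
  refine hint.trans ?_
  unfold H
  rw [← hX, ← hLdef]
  -- bound eta
  have heta : 1 + 3 / L ≤ ρ := by
    refine le_trans ?_ hrho
    have h1 : Real.log (2 * x + 3) ≤ 1 + L := by
      have e1 : Real.log (2 * (x:ℝ) + 3) ≤ Real.log (2 * X) := by
        apply Real.log_le_log (by linarith)
        rw [hX]; linarith
      rw [Real.log_mul (by norm_num) hXpos.ne'] at e1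
      have := Real.log_two_lt_d9
      linarith
    have h2 : 3 / L ≤ 4 / (4 + Real.log (2 * x + 3)) := by
      have hlog : 0 ≤ Real.log (2 * (x:ℝ) + 3) := Real.log_nonneg (by linarith)
      rw [div_le_div_iff₀ hLpos (by linarith)]
      nlinarith
    linarith
  -- bound v
  have hvle : v ≤ 2 * X + C1 * s := by
    have := (abs_le.1 hsec).2
    rw [hX]
    linarith
  -- bound w
  have hwle : w ≤ B * s ^ 3 := by
    have e1 : (1 / s) ^ 3 = 1 / s ^ 3 := by rw [one_div, inv_pow, one_div]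
    rw [e1, mul_one_div, div_le_iff₀ (by positivity)] at hcube
    exact hcube
  have hL1 : 1 ≤ L := by linarith
  have hv2 : (1 / (2 * L ^ 2) + 1 / L ^ 3) * (v / X ^ 2)
      ≤ (1 / L ^ 2 + 2 / L ^ 3) / X + 2 * C1 * s / X ^ 2 := by
    have hc : 0 ≤ 1 / (2 * L ^ 2) + 1 / L ^ 3 := by positivity
    have hc2 : 1 / (2 * L ^ 2) + 1 / L ^ 3 ≤ 2 := by
      have a1 : 1 / (2 * L ^ 2) ≤ 1 := by
        rw [div_le_one (by positivity)]
        have := one_le_pow₀ hL1 (n := 2)
        linarith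
      have a2 : 1 / L ^ 3 ≤ 1 := by
        rw [div_le_one (by positivity)]
        exact one_le_pow₀ hL1
      linarith
    calc _ ≤ (1 / (2 * L ^ 2) + 1 / L ^ 3) * ((2 * X + C1 * s) / X ^ 2) := by gcongr
      _ = (1 / (2 * L ^ 2) + 1 / L ^ 3) * (2 / X)
          + (1 / (2 * L ^ 2) + 1 / L ^ 3) * (C1 * s / X ^ 2) := by
          field_simp
      _ ≤ (1 / (2 * L ^ 2) + 1 / L ^ 3) * (2 / X) + 2 * (C1 * s / X ^ 2) := by gcongr
      _ = _ := by field_simp
  have hw2 : 12 * (w / X ^ 3) ≤ 12 * B * s / X ^ 2 := by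
    have h1 : s ^ 2 ≤ X := by rw [hs2]; linarith
    calc 12 * (w / X ^ 3) ≤ 12 * (B * s ^ 3 / X ^ 3) := by gcongr
      _ = 12 * B * s * (s ^ 2 / X ^ 3) := by ring
      _ ≤ 12 * B * s * (X / X ^ 3) := by gcongr
      _ = _ := by field_simp
  have hrho2 : (1 + 3 / L) / X / L ^ 2 ≤ ρ / X / L ^ 2 := by gcongr
  have hfin : (2 * C1 + 12 * B) * s / X ^ 2 ≤ 1 / (L ^ 3 * X) := by
    rw [div_le_div_iff₀ (by positivity) (by positivity)]
    have h1 : (2 * C1 + 12 * B) * L ^ 3 * X ≤ x * s := hpoly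
    calc (2 * C1 + 12 * B) * s * (L ^ 3 * X) = ((2 * C1 + 12 * B) * L ^ 3 * X) * s := by ring
      _ ≤ (x * s) * s := by gcongr
      _ = x * s ^ 2 := by ring
      _ = (x:ℝ) ^ 2 := by rw [hs2]; ring
      _ ≤ 1 * X ^ 2 := by rw [hX]; nlinarith
  have e5 : (1 + 3 / L) / X / L ^ 2 = (1 / L ^ 2 + 2 / L ^ 3) / X + 1 / (L ^ 3 * X) := by
    field_simp
    ring
  have e6 : (2 * C1 + 12 * B) * s / X ^ 2 = 2 * C1 * s / X ^ 2 + 12 * B * s / X ^ 2 := by ring
  rw [e6] at hfin
  rw [e5] at hrho2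
  linarith

end Pool.Agent.D0H97.ERW
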