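import Pool.Agent.D0H97.ERW.Super

set_option autoImplicit false

open MeasureTheory ProbabilityTheory Filter Topology
open scoped ENNReal BigOperators

namespace Pool.Agent.D0H97.ERW

/-- `U` is monotone in the number of failures -/
lemma U_mono {τ : ℕ → Bool} (h : Inff τ) {x y : ℕ} (hxy : x ≤ y) : U x τ ≤ U y τ := by
  have h1 : ∀ n, su x τ n ≤ su y τ n := by
    intro n
    induction n with
    | zero => simp [su]
    | succ n ih =>
      simp only [su]
      cases hb : τ n
      · simpa using ih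
      · simp only [and_true]
        split_ifs <;> omega
  have h2 := su_eq h (le_max_left (Tx x τ) (Tx y τ))
  have h3 := su_eq h (le_max_right (Tx x τ) (Tx y τ))
  rw [← h2, ← h3]
  exact h1 _

/-- the drift `ρ(x)` for `μ = 1` -/
noncomputable def rho (x : ℕ) : ℝ := ∫ τ, ((U x τ : ℝ) - x) ∂(seqLaw qq)

/-- the second moment -/
noncomputable def vv (x : ℕ) : ℝ := ∫ τ, ((U x τ : ℝ) - x) ^ 2 ∂(seqLaw qq)

lemma rho_tendsto : Tendsto rho atTop (𝓝 1) := by
  have hl : Tendsto (fun x : ℕ => 1 + 4 / (4 + Real.log (2 * (x:ℝ) + 3))) atTop (𝓝 1) := by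
    have h1 : Tendsto (fun x : ℕ => 2 * (x:ℝ) + 3) atTop atTop :=
      tendsto_atTop_add_const_right _ _
        (tendsto_natCast_atTop_atTop.const_mul_atTop (by norm_num))
    have h2 : Tendsto (fun x : ℕ => 4 + Real.log (2 * (x:ℝ) + 3)) atTop atTop :=
      tendsto_atTop_add_const_left _ _ (Real.tendsto_log_atTop.comp h1)
    have h3 : Tendsto (fun x : ℕ => 4 / (4 + Real.log (2 * (x:ℝ) + 3))) atTop (𝓝 0) :=
      h2.const_div_atTop 4
    simpa using h3.const_add 1
  have hu : Tendsto (fun x : ℕ => 1 + 4 / (4 + Real.log ((x:ℝ) - 3))) atTop (𝓝 1) := by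
    have h1 : Tendsto (fun x : ℕ => (x:ℝ) - 3) atTop atTop :=
      tendsto_atTop_add_const_right _ (-3) tendsto_natCast_atTop_atTop
    have h2 : Tendsto (fun x : ℕ => 4 + Real.log ((x:ℝ) - 3)) atTop atTop :=
      tendsto_atTop_add_const_left _ _ (Real.tendsto_log_atTop.comp h1)
    have h3 : Tendsto (fun x : ℕ => 4 / (4 + Real.log ((x:ℝ) - 3))) atTop (𝓝 0) :=
      h2.const_div_atTop 4
    simpa using h3.const_add 1
  refine tendsto_of_tendsto_of_tendsto_of_le_of_le' hl hu ?_ ?_
  · filter_upwards [eventually_ge_atTop 5] with x hx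
    exact (rho_bounds hx).1
  · filter_upwards [eventually_ge_atTop 5] with x hx
    exact (rho_bounds hx).2

lemma nu_tendsto : Tendsto (fun x : ℕ => vv x / x) atTop (𝓝 2) := by
  set C : ℝ := 2 * 3 * (1 + BB 3) with hC
  have hCpos : 0 < C := by have := BB_pos 3; positivity
  have hrx : Tendsto (fun x : ℕ => rho x / x) atTop (𝓝 0) :=
    rho_tendsto.div_atTop tendsto_natCast_atTop_atTop
  have hsq : Tendsto (fun x : ℕ => C * (1 / Real.sqrt x)) atTop (𝓝 0) := by
    have h1 : Tendsto (fun x : ℕ => Real.sqrt x) atTop atTop :=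
      Real.tendsto_sqrt_atTop.comp tendsto_natCast_atTop_atTop
    have := (h1.const_div_atTop 1).const_mul C
    simpa using this
  have hl : Tendsto (fun x : ℕ => 2 + rho x / x - C * (1 / Real.sqrt x)) atTop (𝓝 2) := by
    simpa using (hrx.const_add 2).sub hsq
  have hu : Tendsto (fun x : ℕ => 2 + rho x / x + C * (1 / Real.sqrt x)) atTop (𝓝 2) := by
    simpa using (hrx.const_add 2).add hsq
  have key : ∀ x : ℕ, 2 ≤ x → |vv x / x - (2 + rho x / x)| ≤ C * (1 / Real.sqrt x) := by
    intro x hx
    have h := E_second good_qq hx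
    rw [E_T good_qq hx] at h
    have hx0 : (0:ℝ) < x := by
      have : 0 < x := by omega
      exact_mod_cast this
    have hs : 0 < Real.sqrt x := Real.sqrt_pos.2 hx0
    have hs2 : Real.sqrt x * Real.sqrt x = x := Real.mul_self_sqrt hx0.le
    have e : vv x / x - (2 + rho x / x) = (vv x - (2 * x + rho x)) / x := by
      field_simp
    rw [e, abs_div, abs_of_pos hx0, div_le_iff₀ hx0]
    have e2 : C * (1 / Real.sqrt x) * x = C * Real.sqrt x := by
      rw [mul_assoc]
      congr 1
      rw [one_div, inv_mul_eq_div, div_eq_iff hs.ne', hs2]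
    rw [e2]
    exact h
  refine tendsto_of_tendsto_of_tendsto_of_le_of_le' hl hu ?_ ?_
  · filter_upwards [eventually_ge_atTop 2] with x hx
    have := (abs_le.1 (key x hx)).1
    linarith
  · filter_upwards [eventually_ge_atTop 2] with x hx
    have := (abs_le.1 (key x hx)).2
    linarith

lemma theta_tendsto : Tendsto (fun x : ℕ => 2 * rho x / (vv x / x)) atTop (𝓝 1) := by
  have := (rho_tendsto.const_mul 2).div nu_tendsto (by norm_num)
  rw [mul_one, div_self (two_ne_zero)] at this
  exact this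

lemma mu_tendsto : Tendsto (fun x : ℕ => (∫ τ, (U x τ : ℝ) ∂(seqLaw qq)) / x) atTop (𝓝 1) := by
  have hrx : Tendsto (fun x : ℕ => rho x / x) atTop (𝓝 0) :=
    rho_tendsto.div_atTop tendsto_natCast_atTop_atTop
  have h2 : Tendsto (fun x : ℕ => rho x / x + 1) atTop (𝓝 1) := by
    simpa using hrx.add_const 1
  refine h2.congr' ?_
  filter_upwards [eventually_ge_atTop 2] with x hx
  have hx0 : (0:ℝ) < x := by
    have : 0 < x := by omega
    exact_mod_cast this
  have hi1 : Integrable (fun τ => (U x τ : ℝ)) (seqLaw qq) := by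
    have := (int_U1 good_qq hx).sub (integrable_const (x:ℝ))
    refine this.congr (ae_of_all _ (fun τ => ?_))
    simp only [Pi.sub_apply]; ring
  have : rho x = (∫ τ, (U x τ : ℝ) ∂(seqLaw qq)) - x := by
    unfold rho
    rw [integral_sub hi1 (integrable_const _)]
    simp
  rw [this]
  field_simp
  ring

end Pool.Agent.D0H97.ERW
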