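import Pool.Agent.D0H97.ERW.ChainR

set_option autoImplicit false

open MeasureTheory ProbabilityTheory Filter Topology
open scoped ENNReal BigOperators

namespace Pool.Agent.D0H97.ERW

/-- position of the walk driven by the stacks `ω` and numbers of earlier visits -/
def st (ω : ℤ → ℕ → Bool) : ℕ → ℤ × (ℤ → ℕ)
  | 0 => (0, fun _ => 0)
  | (n + 1) =>
      (if ω (st ω n).1 ((st ω n).2 (st ω n).1) = true then (st ω n).1 + 1 else (st ω n).1 - 1,
        Function.update (st ω n).2 (st ω n).1 ((st ω n).2 (st ω n).1 + 1))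

/-- position -/
def W (ω : ℤ → ℕ → Bool) (n : ℕ) : ℤ := (st ω n).1
/-- number of departures -/
def cc (ω : ℤ → ℕ → Bool) (n : ℕ) (y : ℤ) : ℕ := (st ω n).2 y
/-- number of left jumps -/
def Lf (ω : ℤ → ℕ → Bool) (n : ℕ) (y : ℤ) : ℕ := fails (ω y) (cc ω n y)
/-- number of right jumps -/
def Rt (ω : ℤ → ℕ → Bool) (n : ℕ) (y : ℤ) : ℕ := fails (fun i => !ω y i) (cc ω n y)

variable {ω : ℤ → ℕ → Bool}

lemma W_zero : W ω 0 = 0 := rfl
lemma cc_zero (y : ℤ) : cc ω 0 y = 0 := rfl

lemma W_succ (n : ℕ) :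
    W ω (n + 1) = if ω (W ω n) (cc ω n (W ω n)) = true then W ω n + 1 else W ω n - 1 := rfl

lemma cc_succ (n : ℕ) (y : ℤ) :
    cc ω (n + 1) y = cc ω n y + (if y = W ω n then 1 else 0) := by
  have : cc ω (n + 1) y = Function.update (st ω n).2 (st ω n).1 ((st ω n).2 (st ω n).1 + 1) y := rfl
  rw [this]
  by_cases h : y = W ω n
  · rw [if_pos h]
    subst h
    exact Function.update_self _ _ _
  · have h' : y ≠ (st ω n).1 := h
    rw [if_neg h, Function.update_of_ne h']
    rfl

lemma fails_add (τ : ℕ → Bool) (n : ℕ) : fails τ n + fails (fun i => !τ i) n = n := by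
  induction n with
  | zero => simp [fails_zero]
  | succ n ih =>
    rw [fails_succ, fails_succ]
    cases h : τ n <;> simp <;> omega

lemma Lf_add_Rt (n : ℕ) (y : ℤ) : Lf ω n y + Rt ω n y = cc ω n y := fails_add _ _

lemma Lf_succ (n : ℕ) (y : ℤ) :
    Lf ω (n + 1) y = Lf ω n y + (if y = W ω n ∧ W ω (n + 1) = W ω n - 1 then 1 else 0) := by
  unfold Lf
  rw [cc_succ]
  by_cases h : y = W ω n
  · rw [if_pos h, fails_succ]
    congr 1
    subst h
    rw [W_succ]
    cases hb : ω (W ω n) (cc ω n (W ω n))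
    · simp
    · simp; omega
  · rw [if_neg h, if_neg (fun hh => h hh.1)]
    simp

lemma Rt_succ (n : ℕ) (y : ℤ) :
    Rt ω (n + 1) y = Rt ω n y + (if y = W ω n ∧ W ω (n + 1) = W ω n + 1 then 1 else 0) := by
  unfold Rt
  rw [cc_succ]
  by_cases h : y = W ω n
  · rw [if_pos h, fails_succ]
    congr 1
    subst h
    rw [W_succ]
    cases hb : ω (W ω n) (cc ω n (W ω n))
    · simp; omega
    · simp
  · rw [if_neg h, if_neg (fun hh => h hh.1)]
    simp

lemma W_step (n : ℕ) : W ω (n + 1) = W ω n + 1 ∨ W ω (n + 1) = W ω n - 1 := by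
  rw [W_succ]; split_ifs <;> simp

/-- the balance equation -/
lemma balance (n : ℕ) (y : ℤ) :
    (Rt ω n y : ℤ) - Lf ω n (y + 1) = (if y < W ω n then 1 else 0) - (if y < 0 then 1 else 0) := by
  induction n with
  | zero =>
    simp only [Rt, Lf, cc_zero, fails_zero]
    have hW : W ω 0 = 0 := W_zero
    by_cases h : y < 0
    · rw [if_pos h, if_pos (by rw [hW]; exact h)]; simp
    · rw [if_neg h, if_neg (by rw [hW]; exact h)]; simp
  | succ n ih =>
    rw [Lf_succ, Rt_succ]
    push_cast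
    rcases W_step (ω := ω) n with h | h
    · rw [h]
      have h1 : ¬ (y + 1 = W ω n ∧ W ω n + 1 = W ω n - 1) := by omega
      rw [if_neg h1]
      by_cases h2 : y = W ω n
      · rw [if_pos ⟨h2, rfl⟩, if_pos (by omega)]
        rw [if_neg (by omega)] at ih
        linarith
      · rw [if_neg (by tauto)]
        by_cases h3 : y < W ω n
        · rw [if_pos (by omega)]
          rw [if_pos h3] at ih
          linarith
        · rw [if_neg (by omega)]
          rw [if_neg h3] at ih
          linarith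
    · rw [h]
      have h1 : ¬ (y = W ω n ∧ W ω n - 1 = W ω n + 1) := by omega
      rw [if_neg h1]
      by_cases h2 : y + 1 = W ω n
      · rw [if_pos ⟨h2, rfl⟩, if_neg (by omega)]
        rw [if_pos (by omega)] at ih
        linarith
      · rw [if_neg (by tauto)]
        by_cases h3 : y < W ω n
        · rw [if_pos (by omega)]
          rw [if_pos h3] at ih
          linarith
        · rw [if_neg (by omega)]
          rw [if_neg h3] at ih
          linarith

/-- last departures -/
lemma last_dep (n : ℕ) (y : ℤ) (hc : 0 < cc ω n y) :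
    (W ω n < y → ω y (cc ω n y - 1) = false) ∧ (y < W ω n → ω y (cc ω n y - 1) = true) := by
  induction n with
  | zero => simp [cc_zero] at hc
  | succ n ih =>
    rw [cc_succ] at hc ⊢
    by_cases h : y = W ω n
    · rw [if_pos h]
      subst h
      have e : cc ω n (W ω n) + 1 - 1 = cc ω n (W ω n) := by omega
      rw [e, W_succ]
      cases hb : ω (W ω n) (cc ω n (W ω n))
      · simp
      · simp
    · rw [if_neg h, add_zero] at hc ⊢
      obtain ⟨h1, h2⟩ := ih hc
      rcases W_step (ω := ω) n with h3 | h3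
      · rw [h3]
        exact ⟨fun h4 => h1 (by omega), fun h4 => h2 (by omega)⟩
      · rw [h3]
        exact ⟨fun h4 => h1 (by omega), fun h4 => h2 (by omega)⟩

/-- `U` evaluated along a prefix ending with a failure -/
lemma U_prefix {τ : ℕ → Bool} {c : ℕ} (h : c = 0 ∨ τ (c - 1) = false) :
    U (fails τ c) τ = fails (fun i => !τ i) c := by
  have h1 : sInf {n | fails τ n = fails τ c} = c := by
    apply le_antisymm
    · exact Nat.sInf_le rfl
    · by_contra hlt
      push Not at hlt
      have hmem : fails τ (sInf {n | fails τ n = fails τ c}) = fails τ c :=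
        Nat.sInf_mem (s := {n | fails τ n = fails τ c}) ⟨c, rfl⟩
      rcases h with h | h
      · omega
      · have h2 : fails τ (c - 1 + 1) = fails τ (c - 1) + 1 := by
          rw [fails_succ, if_pos h]
        have h3 : c - 1 + 1 = c := by omega
        rw [h3] at h2
        have h4 := fails_mono τ (show sInf {n | fails τ n = fails τ c} ≤ c - 1 by omega)
        omega
  unfold U
  rw [h1]
  have := fails_add τ c
  omega

lemma U_prefix' {τ : ℕ → Bool} (hτ : Inff τ) {c x : ℕ} (h : fails τ c < x) :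
    fails (fun i => !τ i) c ≤ U x τ := by
  rw [fails_lt_iff hτ] at h
  have h1 := Tx_eq hτ x
  have h2 := fails_add τ c
  have h3 : fails τ (Tx x τ) = x := fails_Tx hτ x
  -- number of failures between c and Tx
  have h4 := fails_add τ (Tx x τ)
  have h5 := fails_mono (fun i => !τ i) h.le
  omega

lemma cc_far (n : ℕ) (y : ℤ) (hy : (n : ℤ) ≤ y) : cc ω n y = 0 ∧ W ω n ≤ n := by
  induction n generalizing y with
  | zero => exact ⟨rfl, by simp [W_zero]⟩
  | succ n ih =>
    have h0 := ih y (by push_cast at hy; omega)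
    have h1 := ih n le_rfl
    refine ⟨?_, ?_⟩
    · rw [cc_succ, h0.1, if_neg]
      push_cast at hy
      omega
    · rcases W_step (ω := ω) n with h3 | h3 <;> rw [h3] <;> push_cast <;> omega

/-- at a time when the walk is `≤ 0` the numbers of left jumps on the right half line form the
chain `U` -/
lemma chain_right {n : ℕ} (hn : W ω n ≤ 0) (k : ℕ) :
    chain U (fun k => (k : ℤ) + 1) (Lf ω n 1) ω k = Lf ω n ((k : ℤ) + 1) := by
  induction k with
  | zero => simp [chain]
  | succ k ih =>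
    simp only [chain]
    rw [ih]
    have hb := balance (ω := ω) n ((k : ℤ) + 1)
    rw [if_neg (by omega), if_neg (by omega)] at hb
    have h1 : Rt ω n ((k : ℤ) + 1) = Lf ω n ((k : ℤ) + 1 + 1) := by omega
    have h2 : U (Lf ω n ((k : ℤ) + 1)) (ω ((k : ℤ) + 1)) = Rt ω n ((k : ℤ) + 1) := by
      apply U_prefix
      rcases Nat.eq_zero_or_pos (cc ω n ((k : ℤ) + 1)) with h | h
      · left; exact h
      · right
        exact (last_dep n _ h).1 (by omega)
    rw [h2, h1]
    push_cast
    rfl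

lemma exists_time {m : ℕ} (hm : 1 ≤ m) {n : ℕ} (h : m ≤ Lf ω n 1) :
    ∃ n', W ω n' ≤ 0 ∧ Lf ω n' 1 = m := by
  induction n with
  | zero =>
    exfalso
    have : Lf ω 0 1 = 0 := by simp [Lf, cc_zero, fails_zero]
    omega
  | succ n ih =>
    by_cases h1 : m ≤ Lf ω n 1
    · exact ih h1
    · have h2 := Lf_succ (ω := ω) n 1
      split_ifs at h2 with h3
      · exact ⟨n + 1, by omega, by omega⟩
      · omega

/-- if site `1` is left `m` times to the left then the chain dies -/
lemma right_claim {m : ℕ} (hm : 1 ≤ m) {n : ℕ} (h : m ≤ Lf ω n 1) :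
    ∃ k, chain U (fun k => (k : ℤ) + 1) m ω k = 0 := by
  obtain ⟨n', h1, h2⟩ := exists_time hm h
  refine ⟨n', ?_⟩
  have h3 := chain_right h1 n'
  rw [h2] at h3
  rw [h3]
  unfold Lf
  rw [(cc_far n' ((n' : ℤ) + 1) (by omega)).1, fails_zero]

/-- stacks with infinitely many of both values -/
def Nice (ω : ℤ → ℕ → Bool) : Prop := ∀ y, Inff (ω y) ∧ Inff (fun i => !ω y i)

lemma chain_left (hω : Nice ω) {m : ℕ} (n : ℕ) (hm : Lf ω n 0 ≤ m) (k : ℕ) :
    Lf ω n (-(k : ℤ)) ≤ chain UL (fun k => -((k : ℤ) + 1)) m ω k := by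
  induction k with
  | zero => simpa [chain] using hm
  | succ k ih =>
    simp only [chain]
    have hmono : UL (Lf ω n (-(k : ℤ))) (ω (-((k : ℤ) + 1))) ≤
        UL (chain UL (fun k => -((k : ℤ) + 1)) m ω k) (ω (-((k : ℤ) + 1))) :=
      U_mono (hω _).2 ih
    refine le_trans ?_ hmono
    set y : ℤ := -((k : ℤ) + 1) with hy
    have hy1 : y + 1 = -(k : ℤ) := by rw [hy]; ring
    have hcast : -((k + 1 : ℕ) : ℤ) = y := by rw [hy]; push_cast; ring
    rw [hcast]
    have hb := balance (ω := ω) n y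
    rw [hy1, if_pos (show y < 0 by omega)] at hb
    have hL : Lf ω n y = fails (fun i => !(fun i => !ω y i) i) (cc ω n y) := by
      unfold Lf
      simp
    by_cases h1 : y < W ω n
    · rw [if_pos h1] at hb
      have h2 : Lf ω n (-(k : ℤ)) = Rt ω n y := by omega
      rw [h2]
      have h3 : UL (Rt ω n y) (ω y) = Lf ω n y := by
        rw [hL]
        unfold UL
        apply U_prefix
        rcases Nat.eq_zero_or_pos (cc ω n y) with h | h
        · left; exact h
        · right
          have := (last_dep n _ h).2 h1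
          simp [this]
      rw [h3]
    · rw [if_neg h1] at hb
      have h2 : Rt ω n y < Lf ω n (-(k : ℤ)) := by omega
      rw [hL]
      exact U_prefix' (hω y).2 h2

/-- site `y` is visited unboundedly often -/
def Unb (ω : ℤ → ℕ → Bool) (y : ℤ) : Prop := ∀ M, ∃ n, M ≤ cc ω n y

lemma fails_unb {τ : ℕ → Bool} (h : Inff τ) {c : ℕ → ℕ} (hc : ∀ M, ∃ n, M ≤ c n) (M : ℕ) :
    ∃ n, M ≤ fails τ (c n) := by
  obtain ⟨n, hn⟩ := hc (Tx M τ)
  refine ⟨n, ?_⟩
  have := fails_mono τ hn
  rwa [fails_Tx h] at this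

lemma Unb.left (hω : Nice ω) {y : ℤ} (h : Unb ω y) (M : ℕ) : ∃ n, M ≤ Lf ω n y :=
  fails_unb (hω y).1 h M

lemma Unb.right (hω : Nice ω) {y : ℤ} (h : Unb ω y) (M : ℕ) : ∃ n, M ≤ Rt ω n y :=
  fails_unb (hω y).2 h M

lemma Unb.succ (hω : Nice ω) {y : ℤ} (h : Unb ω y) : Unb ω (y + 1) := by
  intro M
  obtain ⟨n, hn⟩ := h.right hω (M + 1)
  refine ⟨n, ?_⟩
  have h1 := balance (ω := ω) n y
  have h2 := Lf_add_Rt (ω := ω) n (y + 1)
  split_ifs at h1 <;> omega

lemma Unb.pred (hω : Nice ω) {y : ℤ} (h : Unb ω y) : Unb ω (y - 1) := by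
  intro M
  obtain ⟨n, hn⟩ := h.left hω (M + 1)
  refine ⟨n, ?_⟩
  have h1 := balance (ω := ω) n (y - 1)
  have h2 := Lf_add_Rt (ω := ω) n (y - 1)
  have e : y - 1 + 1 = y := by ring
  rw [e] at h1
  split_ifs at h1 <;> omega

lemma Unb.one (hω : Nice ω) {y : ℤ} (h : Unb ω y) : Unb ω 1 := by
  have h1 : ∀ k : ℕ, ∀ y : ℤ, Unb ω y → Unb ω (y + k) ∧ Unb ω (y - k) := by
    intro k
    induction k with
    | zero => intro y hy; simpa using hy
    | succ k ih =>
      intro y hy
      obtain ⟨a, b⟩ := ih y hy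
      refine ⟨?_, ?_⟩
      · have := a.succ hω
        have e : y + ((k + 1 : ℕ) : ℤ) = y + k + 1 := by push_cast; ring
        rwa [e]
      · have := b.pred hω
        have e : y - ((k + 1 : ℕ) : ℤ) = y - k - 1 := by push_cast; ring
        rwa [e]
  rcases le_total y 1 with h2 | h2
  · have := (h1 (1 - y).toNat y h).1
    rwa [Int.toNat_of_nonneg (by omega), show y + (1 - y) = 1 by ring] at this
  · have := (h1 (y - 1).toNat y h).2
    rwa [Int.toNat_of_nonneg (by omega), show y - (y - 1) = 1 by ring] at this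

lemma cc_mono (y : ℤ) : Monotone (fun n => cc ω n y) := by
  apply monotone_nat_of_le_succ
  intro n
  rw [cc_succ]
  omega

lemma eventually_ne {y : ℤ} (h : ¬ Unb ω y) : ∀ᶠ n in atTop, W ω n ≠ y := by
  by_contra h1
  rw [eventually_atTop] at h1
  push Not at h1
  apply h
  intro M
  induction M with
  | zero => exact ⟨0, Nat.zero_le _⟩
  | succ M ih =>
    obtain ⟨n, hn⟩ := ih
    obtain ⟨k, hk1, hk2⟩ := h1 n
    refine ⟨k + 1, ?_⟩
    rw [cc_succ, if_pos hk2.symm]
    have := cc_mono (ω := ω) y hk1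
    simp only at this
    omega

lemma W_ge {K : ℕ} (h : ∀ n, Lf ω n (-(K : ℤ)) = 0) (n : ℕ) : -(K : ℤ) ≤ W ω n := by
  induction n with
  | zero => simp [W_zero]
  | succ n ih =>
    rcases W_step (ω := ω) n with h1 | h1
    · omega
    · rcases ih.lt_or_eq with h2 | h2
      · omega
      · exfalso
        have h3 := h (n + 1)
        rw [Lf_succ, if_pos ⟨h2, h1⟩] at h3
        omega

/-- deterministic criterion for transience to the right -/
theorem W_tendsto (hω : Nice ω) (h1 : ∃ m, ∀ n, Lf ω n 1 < m)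
    (h2 : ∀ m, ∃ k, chain UL (fun k => -((k : ℤ) + 1)) m ω k = 0) :
    Tendsto (W ω) atTop atTop := by
  have hunb : ∀ y, ¬ Unb ω y := by
    intro y hy
    obtain ⟨m, hm⟩ := h1
    obtain ⟨n, hn⟩ := (hy.one hω).left hω m
    have := hm n
    omega
  obtain ⟨M, hM⟩ : ∃ M, ∀ n, Lf ω n 0 ≤ M := by
    have h3 := hunb 0
    unfold Unb at h3
    push Not at h3
    obtain ⟨M, hM⟩ := h3
    refine ⟨M, fun n => ?_⟩
    have := hM n
    have h4 := Lf_add_Rt (ω := ω) n 0
    omega
  obtain ⟨K, hK⟩ := h2 M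
  have hge : ∀ n, -(K : ℤ) ≤ W ω n := by
    apply W_ge
    intro n
    have := chain_left hω n (hM n) K
    rw [hK] at this
    omega
  rw [tendsto_atTop]
  intro B
  have hfin : ∀ᶠ n in atTop, ∀ y ∈ Finset.Icc (-(K : ℤ)) B, W ω n ≠ y := by
    rw [Filter.eventually_all_finset]
    intro y _
    exact eventually_ne (hunb y)
  filter_upwards [hfin] with n hn
  by_contra hlt
  push Not at hlt
  exact hn (W ω n) (Finset.mem_Icc.2 ⟨hge n, hlt.le⟩) rfl

end Pool.Agent.D0H97.ERW
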